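import Mathlib

/-!
# MSF, module Irr: `exp m` is irrational for an integer `m ≠ 0`
-/

set_option autoImplicit false

open Polynomial

namespace Pool.Agent.MSF

/-- `exp m` is irrational. -/
theorem irr_exp (m : ℤ) (hm : m ≠ 0) : Irrational (Real.exp m) := by
  rintro ⟨q, hq⟩
  have hf : (X - C m : ℤ[X]).eval 0 ≠ 0 := by
    simp only [eval_sub, eval_X, eval_C, zero_sub, ne_eq, neg_eq_zero]
    exact hm
  obtain ⟨c, hc⟩ := LindemannWeierstrass.exp_polynomial_approx (X - C m) hf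
  have hroot : ((m : ℤ) : ℂ) ∈ (X - C m : ℤ[X]).aroots ℂ := by
    rw [mem_aroots]
    refine ⟨X_sub_C_ne_zero m, ?_⟩
    simp
  -- `exp m = a / b`
  have hb : (0 : ℝ) < q.den := by exact_mod_cast q.den_pos
  have hexp : Complex.exp (m : ℤ) = (q : ℂ) := by
    have h1 : Complex.exp ((m : ℝ) : ℂ) = ((Real.exp m : ℝ) : ℂ) := (Complex.ofReal_exp _).symm
    rw [← hq] at h1
    push_cast at h1
    exact h1
  have hnum : q.num ≠ 0 := by
    intro h0
    have h1 : (q : ℝ) = 0 := by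
      rw [Rat.num_eq_zero.1 h0]
      norm_num
    rw [hq] at h1
    exact (Real.exp_pos _).ne' h1
  -- the error is small for a large prime
  have hlim : Filter.Tendsto (fun p : ℕ => (q.den : ℝ) * (|c| ^ p / ((p - 1).factorial : ℝ)))
      Filter.atTop (nhds 0) := by
    have h1 := FloorSemiring.tendsto_pow_div_factorial_atTop (K := ℝ) |c|
    have h2 : Filter.Tendsto (fun p : ℕ => (q.den : ℝ) * (|c| * (|c| ^ (p - 1) /
        ((p - 1).factorial : ℝ)))) Filter.atTop (nhds ((q.den : ℝ) * (|c| * 0))) :=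
      ((h1.comp (Filter.tendsto_sub_atTop_nat 1)).const_mul _).const_mul _
    rw [mul_zero, mul_zero] at h2
    refine h2.congr' ?_
    filter_upwards [Filter.eventually_ge_atTop 1] with p hp
    obtain ⟨k, rfl⟩ : ∃ k, p = k + 1 := ⟨p - 1, by omega⟩
    rw [Nat.add_sub_cancel, pow_succ]
    ring
  obtain ⟨N, hN⟩ := Filter.eventually_atTop.1 (hlim.eventually (gt_mem_nhds one_pos))
  obtain ⟨p, hp1, hp⟩ := Nat.exists_infinite_primes
    (N + (eval 0 (X - C m : ℤ[X])).natAbs + q.num.natAbs + 1)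
  obtain ⟨n, hn, gp, -, happ⟩ := hc p (by omega) hp
  have h1 := happ hroot
  rw [hexp] at h1
  have h2 : (aeval ((m : ℤ) : ℂ) gp : ℂ) = ((gp.eval m : ℤ) : ℂ) := by
    have h3 := Polynomial.aeval_algebraMap_apply ℂ (m : ℤ) gp
    simpa using h3
  rw [h2] at h1
  have hqc : (q : ℂ) * (q.den : ℂ) = (q.num : ℂ) := by exact_mod_cast Rat.mul_den_eq_num q
  have h4 : ((n * q.num - p * gp.eval m * q.den : ℤ) : ℂ) =
      (q.den : ℂ) * (n • (q : ℂ) - p • ((gp.eval m : ℤ) : ℂ)) := by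
    rw [zsmul_eq_mul, nsmul_eq_mul]
    push_cast
    rw [← hqc]
    ring
  have h5 : ‖((n * q.num - p * gp.eval m * q.den : ℤ) : ℂ)‖ < 1 := by
    rw [h4, norm_mul, Complex.norm_natCast]
    refine lt_of_le_of_lt ?_ (hN p (by omega))
    refine mul_le_mul_of_nonneg_left (h1.trans ?_) hb.le
    have h6 : c ^ p ≤ |c| ^ p := by
      rw [← abs_pow]
      exact le_abs_self _
    exact div_le_div_of_nonneg_right h6 (by positivity)
  rw [Complex.norm_intCast] at h5
  have h6 : n * q.num - p * gp.eval m * q.den = 0 := by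
    rw [← Int.abs_lt_one_iff]
    exact_mod_cast h5
  have h7 : (p : ℤ) ∣ n * q.num := by
    refine ⟨gp.eval m * q.den, ?_⟩
    linear_combination h6
  rcases (Nat.prime_iff_prime_int.1 hp).dvd_or_dvd h7 with h8 | h8
  · exact hn h8
  · have h9 := Int.natAbs_dvd_natAbs.2 h8
    rw [Int.natAbs_natCast] at h9
    have h10 := Nat.le_of_dvd (Int.natAbs_pos.2 hnum) h9
    omega

end Pool.Agent.MSF
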