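import Mathlib

/-!
# MSF, module Asy: sequences of the size `α m² log m + β m²` and their differences
-/

set_option autoImplicit false

open Polynomial Filter Asymptotics Topology

namespace Pool.Agent.MSF

/-- `m² log m` -/
noncomputable def f2 (m : ℕ) : ℝ := (m : ℝ) ^ 2 * Real.log m

/-- `m log m` -/
noncomputable def lm (m : ℕ) : ℝ := (m : ℝ) * Real.log m

/-- `1 / m` -/
noncomputable def iv (m : ℕ) : ℝ := (m : ℝ)⁻¹

/-- `v m = α m² log m + β m² + O(m log m)` -/
def Av (v : ℕ → ℝ) (α β : ℝ) : Prop :=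
  (fun m : ℕ => v m - (α * f2 m + β * (m : ℝ) ^ 2)) =O[atTop] lm

theorem log_ge (m : ℕ) (hm : 3 ≤ m) : 1 ≤ Real.log m := by
  rw [Real.le_log_iff_exp_le (by positivity)]
  have h1 := Real.exp_one_lt_d9
  have h2 : (3 : ℝ) ≤ m := by exact_mod_cast hm
  linarith

theorem id_lm : (fun m : ℕ => (m : ℝ)) =O[atTop] lm := by
  refine IsBigO.of_bound 1 ?_
  filter_upwards [eventually_ge_atTop 3] with m hm
  have h1 := log_ge m hm
  unfold lm
  rw [one_mul, Real.norm_of_nonneg (by positivity), Real.norm_of_nonneg (by positivity)]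
  nlinarith [(Nat.cast_nonneg m : (0 : ℝ) ≤ m)]

theorem one_lm : (fun _ : ℕ => (1 : ℝ)) =O[atTop] lm := by
  refine IsBigO.trans ?_ id_lm
  refine IsBigO.of_bound 1 ?_
  filter_upwards [eventually_ge_atTop 1] with m hm
  have h2 : (1 : ℝ) ≤ m := by exact_mod_cast hm
  rw [one_mul, norm_one, Real.norm_of_nonneg (by positivity)]
  exact h2

/-- `log (a m + b) = log m + log a + O(1/m)` -/
theorem log_lin (a b : ℕ) (ha : 1 ≤ a) :
    (fun m : ℕ => Real.log ((a * m + b : ℕ) : ℝ) - (Real.log m + Real.log a)) =O[atTop] iv := by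
  refine IsBigO.of_bound (b : ℝ) ?_
  filter_upwards [eventually_ge_atTop 1] with m hm
  have hm' : (0 : ℝ) < m := by exact_mod_cast hm
  have ha' : (1 : ℝ) ≤ a := by exact_mod_cast ha
  have h1 : ((a * m + b : ℕ) : ℝ) = a * m * (1 + b / (a * m)) := by
    push_cast
    field_simp
  have h2 : 0 ≤ (b : ℝ) / (a * m) := by positivity
  rw [h1, Real.log_mul (by positivity) (by positivity), Real.log_mul (by positivity) hm'.ne']
  have h3 : Real.log a + Real.log m + Real.log (1 + b / (a * m)) - (Real.log m + Real.log a) =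
      Real.log (1 + b / (a * m)) := by ring
  rw [h3]
  have h4 : 0 ≤ Real.log (1 + b / (a * m)) := Real.log_nonneg (by linarith)
  have h5 := Real.log_le_sub_one_of_pos (by positivity : 0 < 1 + (b : ℝ) / (a * m))
  unfold iv
  rw [Real.norm_of_nonneg h4, Real.norm_of_nonneg (by positivity)]
  have h6 : (b : ℝ) / (a * m) ≤ b * (m : ℝ)⁻¹ := by
    rw [div_eq_mul_inv, mul_inv]
    have h7 : (a : ℝ)⁻¹ ≤ 1 := inv_le_one_of_one_le₀ ha'
    have h8 : (a : ℝ)⁻¹ * (m : ℝ)⁻¹ ≤ 1 * (m : ℝ)⁻¹ :=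
      mul_le_mul_of_nonneg_right h7 (by positivity)
    rw [one_mul] at h8
    exact mul_le_mul_of_nonneg_left h8 (by positivity)
  linarith

theorem log_lin' (a b : ℕ) (ha : 1 ≤ a) :
    (fun m : ℕ => Real.log ((a * m + b : ℕ) : ℝ)) =O[atTop] fun m : ℕ => Real.log m := by
  have h1 := log_lin a b ha
  have h2 : iv =O[atTop] fun m : ℕ => Real.log m := by
    refine IsBigO.of_bound 1 ?_
    filter_upwards [eventually_ge_atTop 3] with m hm
    have h1 := log_ge m hm
    have h2 : (1 : ℝ) ≤ m := by exact_mod_cast (by omega : 1 ≤ m)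
    unfold iv
    rw [one_mul, Real.norm_of_nonneg (by positivity), Real.norm_of_nonneg (by linarith)]
    exact (inv_le_one_of_one_le₀ h2).trans h1
  have h3 : (fun _ : ℕ => Real.log a) =O[atTop] fun m : ℕ => Real.log m := by
    refine IsBigO.of_bound |Real.log a| ?_
    filter_upwards [eventually_ge_atTop 3] with m hm
    have h1 := log_ge m hm
    rw [Real.norm_eq_abs, Real.norm_of_nonneg (by linarith)]
    exact le_mul_of_one_le_right (abs_nonneg _) h1
  have h4 := (h1.trans h2).add ((isBigO_refl (fun m : ℕ => Real.log m) atTop).add h3)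
  refine h4.congr_left fun m => ?_
  ring

/-- linear substitutions in `m² log m` -/
theorem f2_lin (a b : ℕ) (ha : 1 ≤ a) :
    Av (fun m => f2 (a * m + b)) ((a : ℝ) ^ 2) ((a : ℝ) ^ 2 * Real.log a) := by
  have h1 := log_lin a b ha
  have h2 : (fun m : ℕ => (a : ℝ) ^ 2 * (m : ℝ) ^ 2 * (Real.log ((a * m + b : ℕ) : ℝ) -
      (Real.log m + Real.log a))) =O[atTop] lm := by
    have h3 : (fun m : ℕ => (a : ℝ) ^ 2 * (m : ℝ) ^ 2) =O[atTop] fun m : ℕ => (m : ℝ) ^ 2 :=
      (isBigO_refl _ _).const_mul_left _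
    have h4 := h3.mul h1
    refine (h4.trans ?_).trans id_lm
    refine IsBigO.of_bound 1 ?_
    filter_upwards [eventually_ge_atTop 1] with m hm
    have hm' : (0 : ℝ) < m := by exact_mod_cast hm
    unfold iv
    have h5 : (m : ℝ) ^ 2 * (m : ℝ)⁻¹ = m := by
      field_simp
    rw [h5, one_mul]
  have h3 : (fun m : ℕ => (2 * a * b * (m : ℝ) + b ^ 2) * Real.log ((a * m + b : ℕ) : ℝ)) =O[atTop]
      lm := by
    have h4 : (fun m : ℕ => 2 * a * b * (m : ℝ) + (b : ℝ) ^ 2) =O[atTop] fun m : ℕ => (m : ℝ) := by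
      refine ((isBigO_refl _ _).const_mul_left _).add ?_
      refine IsBigO.of_bound ((b : ℝ) ^ 2) ?_
      filter_upwards [eventually_ge_atTop 1] with m hm
      have hm' : (1 : ℝ) ≤ m := by exact_mod_cast hm
      rw [Real.norm_of_nonneg (by positivity), Real.norm_of_nonneg (by positivity)]
      exact le_mul_of_one_le_right (by positivity) hm'
    exact h4.mul (log_lin' a b ha)
  refine (h2.add h3).congr_left fun m => ?_
  unfold f2
  push_cast
  ring

theorem sq_lin (a b : ℕ) (ha : 1 ≤ a) :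
    Av (fun m => ((a * m + b : ℕ) : ℝ) ^ 2) 0 ((a : ℝ) ^ 2) := by
  have _ := ha
  have h4 : (fun m : ℕ => 2 * a * b * (m : ℝ) + (b : ℝ) ^ 2) =O[atTop] fun m : ℕ => (m : ℝ) := by
    refine ((isBigO_refl _ _).const_mul_left _).add ?_
    refine IsBigO.of_bound ((b : ℝ) ^ 2) ?_
    filter_upwards [eventually_ge_atTop 1] with m hm
    have hm' : (1 : ℝ) ≤ m := by exact_mod_cast hm
    rw [Real.norm_of_nonneg (by positivity), Real.norm_of_nonneg (by positivity)]
    exact le_mul_of_one_le_right (by positivity) hm'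
  refine (h4.trans id_lm).congr_left fun m => ?_
  push_cast
  ring

theorem Av.add {v w : ℕ → ℝ} {α β γ δ : ℝ} (h : Av v α β) (h' : Av w γ δ) :
    Av (fun m => v m + w m) (α + γ) (β + δ) := by
  refine (IsBigO.add h h').congr_left fun m => ?_
  ring

theorem Av.smul {v : ℕ → ℝ} {α β : ℝ} (h : Av v α β) (c : ℝ) :
    Av (fun m => c * v m) (c * α) (c * β) := by
  refine (IsBigO.const_mul_left h c).congr_left fun m => ?_
  ring

theorem Av.of_isBigO {v : ℕ → ℝ} (h : v =O[atTop] lm) : Av v 0 0 := by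
  refine h.congr_left fun m => ?_
  ring

/-- linear substitutions -/
theorem Av.lin {v : ℕ → ℝ} {α β : ℝ} (h : Av v α β) (a b : ℕ) (ha : 1 ≤ a) :
    Av (fun m => v (a * m + b)) (α * (a : ℝ) ^ 2)
      (α * ((a : ℝ) ^ 2 * Real.log a) + β * (a : ℝ) ^ 2) := by
  have ht : Tendsto (fun m : ℕ => a * m + b) atTop atTop := by
    refine tendsto_atTop_mono (fun m => ?_) tendsto_id
    show m ≤ a * m + b
    nlinarith
  have h1 := h.comp_tendsto ht
  have h2 : (lm ∘ fun m : ℕ => a * m + b) =O[atTop] lm := by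
    have h4 : (fun m : ℕ => ((a * m + b : ℕ) : ℝ)) =O[atTop] fun m : ℕ => (m : ℝ) := by
      refine IsBigO.of_bound ((a : ℝ) + b) ?_
      filter_upwards [eventually_ge_atTop 1] with m hm
      have hm' : (1 : ℝ) ≤ m := by exact_mod_cast hm
      rw [Real.norm_of_nonneg (by positivity), Real.norm_of_nonneg (by positivity)]
      push_cast
      nlinarith [(Nat.cast_nonneg b : (0 : ℝ) ≤ b)]
    exact h4.mul (log_lin' a b ha)
  have h3 : Av (fun m => v (a * m + b) - (α * f2 (a * m + b) +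
      β * ((a * m + b : ℕ) : ℝ) ^ 2)) 0 0 := Av.of_isBigO (h1.trans h2)
  have h4 := (h3.add ((f2_lin a b ha).smul α)).add ((sq_lin a b ha).smul β)
  refine IsBigO.congr_left h4 fun m => ?_
  ring

/-- uniqueness of the coefficients -/
theorem Av.unique {v : ℕ → ℝ} {α β γ δ : ℝ} (h : Av v α β) (h' : Av v γ δ) : α = γ ∧ β = δ := by
  have h1 : (fun m : ℕ => (α - γ) * f2 m + (β - δ) * (m : ℝ) ^ 2) =O[atTop] lm := by
    refine (IsBigO.sub h' h).congr_left fun m => ?_
    ring
  have hlog : Tendsto (fun m : ℕ => (Real.log m)⁻¹) atTop (𝓝 0) :=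
    (Real.tendsto_log_atTop.comp tendsto_natCast_atTop_atTop).inv_tendsto_atTop
  have hinv : Tendsto (fun m : ℕ => (m : ℝ)⁻¹) atTop (𝓝 0) :=
    tendsto_natCast_atTop_atTop.inv_tendsto_atTop
  have hlm : Tendsto (fun m : ℕ => Real.log m * (m : ℝ)⁻¹) atTop (𝓝 0) := by
    have h2 := (Real.isLittleO_log_id_atTop.comp_tendsto
      (tendsto_natCast_atTop_atTop (R := ℝ))).tendsto_div_nhds_zero
    exact h2
  have hα : α - γ = 0 := by
    -- divide by `m² log m`
    have h2 : (fun m : ℕ => (α - γ) + (β - δ) * (Real.log m)⁻¹) =O[atTop]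
        fun m : ℕ => (m : ℝ)⁻¹ := by
      have h3 := h1.mul (isBigO_refl (fun m : ℕ => (f2 m)⁻¹) atTop)
      refine (h3.congr' ?_ ?_)
      · filter_upwards [eventually_ge_atTop 3] with m hm
        have h4 := log_ge m hm
        have h5 : (m : ℝ) ≠ 0 := by
          have : (3 : ℝ) ≤ m := by exact_mod_cast hm
          positivity
        have h6 : Real.log m ≠ 0 := by positivity
        unfold f2
        field_simp
      · filter_upwards [eventually_ge_atTop 3] with m hm
        have h4 := log_ge m hm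
        have h5 : (m : ℝ) ≠ 0 := by
          have : (3 : ℝ) ≤ m := by exact_mod_cast hm
          positivity
        have h6 : Real.log m ≠ 0 := by positivity
        unfold f2 lm
        field_simp
    have h3 : Tendsto (fun m : ℕ => (α - γ) + (β - δ) * (Real.log m)⁻¹) atTop (𝓝 0) :=
      h2.trans_tendsto hinv
    have h4 : Tendsto (fun m : ℕ => (α - γ) + (β - δ) * (Real.log m)⁻¹) atTop
        (𝓝 ((α - γ) + (β - δ) * 0)) := (hlog.const_mul _).const_add _
    rw [mul_zero, add_zero] at h4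
    exact tendsto_nhds_unique h4 h3
  have hβ : β - δ = 0 := by
    have h2 : (fun _ : ℕ => β - δ) =O[atTop] fun m : ℕ => Real.log m * (m : ℝ)⁻¹ := by
      have h3 := h1.mul (isBigO_refl (fun m : ℕ => ((m : ℝ) ^ 2)⁻¹) atTop)
      refine (h3.congr' ?_ ?_)
      · filter_upwards [eventually_ge_atTop 3] with m hm
        have h5 : (m : ℝ) ≠ 0 := by
          have : (3 : ℝ) ≤ m := by exact_mod_cast hm
          positivity
        rw [hα, zero_mul, zero_add]
        field_simp
      · filter_upwards [eventually_ge_atTop 3] with m hm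
        have h5 : (m : ℝ) ≠ 0 := by
          have : (3 : ℝ) ≤ m := by exact_mod_cast hm
          positivity
        unfold lm
        field_simp
    have h3 : Tendsto (fun _ : ℕ => β - δ) atTop (𝓝 0) := h2.trans_tendsto hlm
    exact tendsto_nhds_unique tendsto_const_nhds h3
  constructor <;> linarith

/-! ### summation -/

theorem sum_iv {x : ℕ → ℝ} (h : (fun m => x (m + 1) - x m) =O[atTop] iv) :
    x =O[atTop] fun m : ℕ => Real.log m := by
  obtain ⟨C, hC0, hC⟩ := h.exists_pos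
  rw [IsBigOWith] at hC
  obtain ⟨m₀, hm₀⟩ := eventually_atTop.1 (hC.and (eventually_ge_atTop 3))
  have hm3 : 3 ≤ m₀ := (hm₀ m₀ le_rfl).2
  have key : ∀ k : ℕ, |x (m₀ + k)| ≤ |x m₀| + 2 * C * (Real.log ((m₀ + k : ℕ) : ℝ) -
      Real.log m₀) := by
    intro k
    induction k with
    | zero => simp
    | succ k ih =>
      have h1 := (hm₀ (m₀ + k) (by omega)).1
      have hp : (0 : ℝ) < ((m₀ + k : ℕ) : ℝ) := by
        exact_mod_cast (by omega : 0 < m₀ + k)
      unfold iv at h1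
      rw [Real.norm_eq_abs, Real.norm_of_nonneg (by positivity)] at h1
      have h2 : (((m₀ + k : ℕ) : ℝ))⁻¹ ≤ 2 * (Real.log ((m₀ + k + 1 : ℕ) : ℝ) -
          Real.log ((m₀ + k : ℕ) : ℝ)) := by
        have hq : (0 : ℝ) < ((m₀ + k + 1 : ℕ) : ℝ) := by positivity
        have h3 := Real.log_le_sub_one_of_pos (div_pos hp hq)
        rw [Real.log_div hp.ne' hq.ne'] at h3
        have h4 : ((m₀ + k : ℕ) : ℝ) / ((m₀ + k + 1 : ℕ) : ℝ) - 1 =
            - (((m₀ + k + 1 : ℕ) : ℝ))⁻¹ := by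
          push_cast
          field_simp
          ring
        rw [h4] at h3
        have h5 : (((m₀ + k : ℕ) : ℝ))⁻¹ ≤ 2 * (((m₀ + k + 1 : ℕ) : ℝ))⁻¹ := by
          rw [inv_eq_one_div, inv_eq_one_div, ← mul_div_assoc, mul_one,
            div_le_div_iff₀ hp hq]
          have h6 : (1 : ℝ) ≤ ((m₀ + k : ℕ) : ℝ) := by
            exact_mod_cast (by omega : 1 ≤ m₀ + k)
          push_cast at h6 ⊢
          linarith
        linarith
      have h3 : x (m₀ + (k + 1)) = x (m₀ + k) + (x (m₀ + k + 1) - x (m₀ + k)) := by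
        rw [← add_assoc]
        ring
      rw [h3]
      refine (abs_add_le _ _).trans ?_
      have h4 : ((m₀ + (k + 1) : ℕ) : ℝ) = ((m₀ + k + 1 : ℕ) : ℝ) := rfl
      rw [h4]
      have h5 : C * (((m₀ + k : ℕ) : ℝ))⁻¹ ≤ C * (2 * (Real.log ((m₀ + k + 1 : ℕ) : ℝ) -
          Real.log ((m₀ + k : ℕ) : ℝ))) := mul_le_mul_of_nonneg_left h2 hC0.le
      linarith
  refine IsBigO.of_bound (|x m₀| + 2 * C) ?_
  filter_upwards [eventually_ge_atTop m₀] with m hm
  obtain ⟨k, rfl⟩ : ∃ k, m = m₀ + k := ⟨m - m₀, by omega⟩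
  have h1 := key k
  have h2 := log_ge (m₀ + k) (by omega)
  have h3 := log_ge m₀ hm3
  rw [Real.norm_eq_abs, Real.norm_of_nonneg (by linarith)]
  have h4 : |x m₀| * 1 ≤ |x m₀| * Real.log ((m₀ + k : ℕ) : ℝ) :=
    mul_le_mul_of_nonneg_left h2 (abs_nonneg _)
  have h5 : 0 ≤ 2 * C * Real.log m₀ := by positivity
  nlinarith

theorem sum_log {x : ℕ → ℝ} (h : (fun m => x (m + 1) - x m) =O[atTop] fun m : ℕ => Real.log m) :
    x =O[atTop] lm := by
  obtain ⟨C, hC0, hC⟩ := h.exists_pos
  rw [IsBigOWith] at hC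
  obtain ⟨m₀, hm₀⟩ := eventually_atTop.1 (hC.and (eventually_ge_atTop 3))
  have key : ∀ k : ℕ, |x (m₀ + k)| ≤ |x m₀| + C * lm (m₀ + k) := by
    intro k
    induction k with
    | zero =>
      have h3 := log_ge m₀ (hm₀ m₀ le_rfl).2
      have : 0 ≤ C * lm m₀ := by
        unfold lm
        positivity
      simpa using this
    | succ k ih =>
      have h1 := (hm₀ (m₀ + k) (by omega)).1
      have h2 := log_ge (m₀ + k) (hm₀ (m₀ + k) (by omega)).2
      rw [Real.norm_eq_abs, Real.norm_of_nonneg (by linarith)] at h1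
      have h3 : x (m₀ + (k + 1)) = x (m₀ + k) + (x (m₀ + k + 1) - x (m₀ + k)) := by
        rw [← add_assoc]
        ring
      rw [h3]
      refine (abs_add_le _ _).trans ?_
      have h4 : lm (m₀ + k) + Real.log ((m₀ + k : ℕ) : ℝ) ≤ lm (m₀ + (k + 1)) := by
        unfold lm
        have h5 : Real.log ((m₀ + k : ℕ) : ℝ) ≤ Real.log ((m₀ + (k + 1) : ℕ) : ℝ) := by
          apply Real.log_le_log
          · exact_mod_cast (by have := (hm₀ m₀ le_rfl).2; omega : 0 < m₀ + k)
          · exact_mod_cast (by omega : m₀ + k ≤ m₀ + (k + 1))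
        have h6 : ((m₀ + (k + 1) : ℕ) : ℝ) = ((m₀ + k : ℕ) : ℝ) + 1 := by push_cast; ring
        have h7 : (0 : ℝ) ≤ ((m₀ + k : ℕ) : ℝ) := Nat.cast_nonneg _
        rw [h6] at h5 ⊢
        nlinarith
      have h5 := mul_le_mul_of_nonneg_left h4 hC0.le
      rw [mul_add] at h5
      linarith
  have h1 : (fun m : ℕ => |x m₀| * 1 + C * lm m) =O[atTop] lm :=
    (one_lm.const_mul_left _).add ((isBigO_refl _ _).const_mul_left _)
  refine IsBigO.trans (IsBigO.of_bound 1 ?_) h1
  filter_upwards [eventually_ge_atTop m₀] with m hm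
  obtain ⟨k, rfl⟩ : ∃ k, m = m₀ + k := ⟨m - m₀, by omega⟩
  rw [one_mul, mul_one, Real.norm_eq_abs]
  refine (key k).trans (le_abs_self _)

end Pool.Agent.MSF
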