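import Pool.Agent.MSF.Asy

/-!
# MSF, module Asy2: second differences, polynomials in the shift, logarithms of polynomials
-/

set_option autoImplicit false

open Polynomial Filter Asymptotics Topology

namespace Pool.Agent.MSF

/-! ### the second difference of `m² log m` -/

/-- the error term of the expansion of `log (m + s)` -/
noncomputable def er (s m : ℕ) : ℝ :=
  Real.log ((m + s : ℕ) : ℝ) - Real.log m - s / m + s ^ 2 / (2 * (m : ℝ) ^ 2)

theorem er_le (s m : ℕ) (hm : 2 * s + 1 ≤ m) : |er s m| ≤ 2 * ((s : ℝ) / m) ^ 3 := by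
  have hm0 : (0 : ℝ) < m := by exact_mod_cast (by omega : 0 < m)
  have hx : (s : ℝ) / m ≤ 1 / 2 := by
    rw [div_le_div_iff₀ hm0 (by norm_num)]
    have h : ((2 * s + 1 : ℕ) : ℝ) ≤ m := by exact_mod_cast hm
    push_cast at h
    linarith
  have hx0 : 0 ≤ (s : ℝ) / m := by positivity
  have h1 := Real.abs_log_sub_add_sum_range_le (x := -((s : ℝ) / m))
    (by rw [abs_neg, abs_of_nonneg hx0]; linarith) 2
  rw [abs_neg, abs_of_nonneg hx0, sub_neg_eq_add, Finset.sum_range_succ, Finset.sum_range_one] at h1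
  have h2 : (-((s : ℝ) / m)) ^ (0 + 1) / (((0 : ℕ) : ℝ) + 1) + (-((s : ℝ) / m)) ^ (1 + 1) /
      (((1 : ℕ) : ℝ) + 1) + Real.log (1 + (s : ℝ) / m) = er s m := by
    unfold er
    have h3 : ((m + s : ℕ) : ℝ) = m * (1 + (s : ℝ) / m) := by
      push_cast
      field_simp
    rw [h3, Real.log_mul hm0.ne' (by positivity)]
    push_cast
    field_simp
    ring
  rw [h2] at h1
  refine h1.trans ?_
  rw [div_le_iff₀ (by linarith)]
  have h4 : 0 ≤ ((s : ℝ) / m) ^ 3 := by positivity
  show ((s : ℝ) / m) ^ 3 ≤ _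
  nlinarith

theorem er_bigO (s t : ℕ) :
    (fun m : ℕ => ((m + t : ℕ) : ℝ) ^ 2 * er s m) =O[atTop] iv := by
  refine IsBigO.of_bound (4 * (2 * (s : ℝ) ^ 3)) ?_
  filter_upwards [eventually_ge_atTop (2 * s + t + 1)] with m hm
  have hm0 : (0 : ℝ) < m := by exact_mod_cast (by omega : 0 < m)
  have h1 := er_le s m (by omega)
  unfold iv
  rw [norm_mul, Real.norm_of_nonneg (by positivity), Real.norm_eq_abs, Real.norm_of_nonneg
    (by positivity)]
  have h2 : ((m + t : ℕ) : ℝ) ^ 2 ≤ 4 * (m : ℝ) ^ 2 := by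
    have h3 : (t : ℝ) ≤ m := by exact_mod_cast (by omega : t ≤ m)
    have h4 : (0 : ℝ) ≤ t := Nat.cast_nonneg t
    push_cast
    nlinarith
  have h3 : ((m + t : ℕ) : ℝ) ^ 2 * |er s m| ≤ 4 * (m : ℝ) ^ 2 * (2 * ((s : ℝ) / m) ^ 3) :=
    mul_le_mul h2 h1 (abs_nonneg _) (by positivity)
  refine h3.trans (le_of_eq ?_)
  field_simp

/-- the second difference of `f2` -/
theorem D2_f2 : (fun m : ℕ => f2 (m + 2) - 2 * f2 (m + 1) + f2 m - (2 * Real.log m + 3)) =O[atTop]
    iv := by
  have h1 := (er_bigO 2 2).sub ((er_bigO 1 1).const_mul_left 2)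
  have h2 : (fun m : ℕ => -7 * ((m : ℝ) ^ 2)⁻¹) =O[atTop] iv := by
    refine IsBigO.of_bound 7 ?_
    filter_upwards [eventually_ge_atTop 1] with m hm
    have hm0 : (1 : ℝ) ≤ m := by exact_mod_cast hm
    unfold iv
    have h4 : ‖-7 * ((m : ℝ) ^ 2)⁻¹‖ = 7 * ((m : ℝ) ^ 2)⁻¹ := by
      rw [norm_mul, norm_neg, Real.norm_of_nonneg (by norm_num : (0 : ℝ) ≤ 7),
        Real.norm_of_nonneg (by positivity)]
    rw [h4, Real.norm_of_nonneg (by positivity)]
    have h3 : ((m : ℝ) ^ 2)⁻¹ ≤ (m : ℝ)⁻¹ := by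
      apply inv_anti₀ (by positivity)
      nlinarith
    linarith
  refine (h1.add h2).congr' ?_ EventuallyEq.rfl
  filter_upwards [eventually_ge_atTop 1] with m hm
  have hm0 : (0 : ℝ) < m := by exact_mod_cast (by omega : 0 < m)
  unfold er f2
  push_cast
  field_simp
  ring

/-! ### the principle of comparison -/

theorem log_shift (s : ℕ) : (fun m : ℕ => Real.log ((m + s : ℕ) : ℝ) - Real.log m) =O[atTop]
    iv := by
  have h1 := log_lin 1 s le_rfl
  refine h1.congr_left fun m => ?_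
  rw [one_mul, Nat.cast_one, Real.log_one]
  ring

theorem iv_shift (s : ℕ) : (fun m : ℕ => iv (m + s)) =O[atTop] iv := by
  refine IsBigO.of_bound 1 ?_
  filter_upwards [eventually_ge_atTop 1] with m hm
  have hm0 : (0 : ℝ) < m := by exact_mod_cast (by omega : 0 < m)
  unfold iv
  rw [one_mul, Real.norm_of_nonneg (by positivity), Real.norm_of_nonneg (by positivity)]
  apply inv_anti₀ hm0
  push_cast
  linarith [(Nat.cast_nonneg s : (0 : ℝ) ≤ s)]

theorem bigO_shift {x : ℕ → ℝ} (h : x =O[atTop] iv) (s : ℕ) :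
    (fun m => x (m + s)) =O[atTop] iv :=
  (h.comp_tendsto (tendsto_add_atTop_nat s)).trans (iv_shift s)

/-- the coefficients are determined by the second difference -/
theorem key2 {y : ℕ → ℝ} {a b k l : ℝ} (hy : Av y a b)
    (h : (fun m : ℕ => y (m + 2) - 2 * y (m + 1) + y m - (k * Real.log m + l)) =O[atTop] iv) :
    k = 2 * a ∧ l = 2 * b + 3 * a := by
  let μ : ℝ := (l - 3 * k / 2) / 2
  let z : ℕ → ℝ := fun m => y m - (k / 2) * f2 m - μ * (m : ℝ) ^ 2
  have h1 : (fun m : ℕ => (z (m + 1 + 1) - z (m + 1)) - (z (m + 1) - z m)) =O[atTop] iv := by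
    have h2 := h.sub (D2_f2.const_mul_left (k / 2))
    refine h2.congr_left fun m => ?_
    show _ = (y (m + 2) - (k / 2) * f2 (m + 2) - μ * ((m + 2 : ℕ) : ℝ) ^ 2 -
      (y (m + 1) - (k / 2) * f2 (m + 1) - μ * ((m + 1 : ℕ) : ℝ) ^ 2)) -
      ((y (m + 1) - (k / 2) * f2 (m + 1) - μ * ((m + 1 : ℕ) : ℝ) ^ 2) -
      (y m - (k / 2) * f2 m - μ * (m : ℝ) ^ 2))
    have h3 : l = 2 * μ + 3 * k / 2 := by
      show l = 2 * ((l - 3 * k / 2) / 2) + 3 * k / 2
      ring
    rw [h3]
    push_cast
    ring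
  have h2 := sum_log (sum_iv (x := fun m => z (m + 1) - z m) h1)
  have h3 : Av y (k / 2) μ := by
    refine h2.congr_left fun m => ?_
    show y m - (k / 2) * f2 m - μ * (m : ℝ) ^ 2 = _
    ring
  obtain ⟨h4, h5⟩ := hy.unique h3
  have h6 : b = (l - 3 * k / 2) / 2 := h5
  constructor <;> linarith

/-! ### the shift -/

/-- the shift operator on sequences -/
noncomputable def E : Module.End ℝ (ℕ → ℝ) := LinearMap.funLeft ℝ ℝ Nat.succ

theorem E_apply (v : ℕ → ℝ) (m : ℕ) : E v m = v (m + 1) := rfl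

theorem E_pow (n : ℕ) (v : ℕ → ℝ) (m : ℕ) : (E ^ n) v m = v (m + n) := by
  induction n generalizing m with
  | zero => rfl
  | succ n ih =>
    rw [pow_succ', Module.End.mul_apply, E_apply, ih]
    congr 1
    omega

theorem Av.aeval {v : ℕ → ℝ} {α β : ℝ} (h : Av v α β) (B : ℝ[X]) :
    Av (Polynomial.aeval E B v) (B.eval 1 * α) (B.eval 1 * β) := by
  induction B using Polynomial.induction_on' with
  | add p q hp hq =>
    rw [map_add, LinearMap.add_apply, eval_add, add_mul, add_mul]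
    exact hp.add hq
  | monomial n c =>
    have h1 := (h.lin 1 n le_rfl).smul c
    rw [aeval_monomial, eval_monomial, one_pow, mul_one]
    have h2 : (algebraMap ℝ (Module.End ℝ (ℕ → ℝ)) c * E ^ n) v = fun m => c * v (1 * m + n) := by
      funext m
      rw [Module.End.mul_apply, Module.algebraMap_end_apply, Pi.smul_apply, E_pow, one_mul,
        smul_eq_mul]
    rw [h2]
    have h3 : c * α = c * (α * ((1 : ℕ) : ℝ) ^ 2) := by
      push_cast
      ring
    have h4 : c * β = c * (α * (((1 : ℕ) : ℝ) ^ 2 * Real.log ((1 : ℕ) : ℝ)) +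
        β * ((1 : ℕ) : ℝ) ^ 2) := by
      push_cast
      rw [Real.log_one]
      ring
    rw [h3, h4]
    exact h1

/-- the value of a polynomial in the shift -/
theorem aeval_sum (r : ℕ) (c : ℕ → ℝ) (v : ℕ → ℝ) (m : ℕ) :
    Polynomial.aeval E (∑ i ∈ Finset.range r, C (c i) * X ^ i) v m =
      ∑ i ∈ Finset.range r, c i * v (m + i) := by
  rw [map_sum, LinearMap.sum_apply, Finset.sum_apply]
  refine Finset.sum_congr rfl fun i _ => ?_
  rw [map_mul, aeval_C, map_pow, aeval_X, Module.End.mul_apply, Module.algebraMap_end_apply,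
    Pi.smul_apply, E_pow, smul_eq_mul]

/-- the analytic part of the theorem -/
theorem key {v w : ℕ → ℝ} {α β k l : ℝ} (hv : Av v α β) (B : ℝ[X]) (j : ℕ)
    (hw : w = Polynomial.aeval E ((X - 1) ^ j * B) v)
    (h : (fun m : ℕ => w m - (k * Real.log m + l)) =O[atTop] iv) :
    (j < 2 → B.eval 1 * α = 0) ∧
    (j = 2 → l = 2 * (B.eval 1 * β) + 3 * (B.eval 1 * α)) := by
  have hy := hv.aeval B
  -- one difference
  have hD : ∀ (u : ℕ → ℝ) (m : ℕ), Polynomial.aeval E (X - 1 : ℝ[X]) u m = u (m + 1) - u m := by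
    intro u m
    rw [map_sub, aeval_X, map_one]
    rfl
  have hD2 : ∀ (u : ℕ → ℝ) (m : ℕ), Polynomial.aeval E ((X - 1) ^ 2 : ℝ[X]) u m =
      u (m + 2) - 2 * u (m + 1) + u m := by
    intro u m
    rw [pow_two, map_mul, Module.End.mul_apply, hD, hD, hD]
    ring
  have hlog1 : (fun m : ℕ => w (m + 1) - w m) =O[atTop] iv := by
    have h1 := (bigO_shift h 1).sub h
    have h2 := (log_shift 1).const_mul_left k
    refine (h1.add h2).congr_left fun m => ?_
    ring
  constructor
  · intro hj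
    have h1 : (fun m : ℕ => Polynomial.aeval E B v (m + 2) - 2 * Polynomial.aeval E B v (m + 1) +
        Polynomial.aeval E B v m - (0 * Real.log m + 0)) =O[atTop] iv := by
      have h3 : ∀ m, Polynomial.aeval E B v (m + 2) - 2 * Polynomial.aeval E B v (m + 1) +
          Polynomial.aeval E B v m = Polynomial.aeval E ((X - 1) ^ (2 - j) : ℝ[X]) w m := by
        intro m
        rw [← hD2, hw, ← Module.End.mul_apply, ← Module.End.mul_apply, ← map_mul, ← map_mul,
          ← mul_assoc, ← pow_add]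
        have h4 : 2 - j + j = 2 := by omega
        rw [h4]
      interval_cases j
      · have h2 := (bigO_shift hlog1 1).sub hlog1
        refine h2.congr_left fun m => ?_
        rw [h3, zero_mul, add_zero, sub_zero]
        show _ = Polynomial.aeval E ((X - 1) ^ 2 : ℝ[X]) w m
        rw [hD2]
        ring
      · refine hlog1.congr_left fun m => ?_
        rw [h3, zero_mul, add_zero, sub_zero]
        show _ = Polynomial.aeval E ((X - 1) ^ 1 : ℝ[X]) w m
        rw [pow_one, hD]
    have h2 := (key2 hy h1).1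
    linarith
  · intro hj
    subst hj
    have h1 : (fun m : ℕ => Polynomial.aeval E B v (m + 2) - 2 * Polynomial.aeval E B v (m + 1) +
        Polynomial.aeval E B v m - (k * Real.log m + l)) =O[atTop] iv := by
      refine h.congr_left fun m => ?_
      rw [hw, ← hD2, ← Module.End.mul_apply, ← map_mul]
    exact (key2 hy h1).2

/-! ### logarithms of polynomials -/

theorem poly_log (P : ℝ[X]) (hP : P ≠ 0) :
    (fun m : ℕ => Real.log (P.eval (m : ℝ)) -
      (P.natDegree * Real.log m + Real.log P.leadingCoeff)) =O[atTop] iv := by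
  have hlc : P.leadingCoeff ≠ 0 := leadingCoeff_ne_zero.2 hP
  -- the relative error
  let u : ℕ → ℝ := fun m => P.eraseLead.eval (m : ℝ) / (P.leadingCoeff * (m : ℝ) ^ P.natDegree)
  have hPe : ∀ m : ℕ, 1 ≤ m → P.eval (m : ℝ) = P.leadingCoeff * (m : ℝ) ^ P.natDegree *
      (1 + u m) := by
    intro m hm
    have hm0 : (m : ℝ) ≠ 0 := by
      have : (0 : ℝ) < m := by exact_mod_cast hm
      exact this.ne'
    have h1 : P.eval (m : ℝ) = (P.eraseLead + C P.leadingCoeff * X ^ P.natDegree).eval (m : ℝ) := by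
      rw [eraseLead_add_C_mul_X_pow]
    rw [h1, eval_add, eval_mul, eval_C, eval_pow, eval_X]
    show _ = P.leadingCoeff * (m : ℝ) ^ P.natDegree *
      (1 + P.eraseLead.eval (m : ℝ) / (P.leadingCoeff * (m : ℝ) ^ P.natDegree))
    field_simp
    ring
  have hu : u =O[atTop] iv := by
    have h1 : (fun m : ℕ => P.eraseLead.eval (m : ℝ) * (m : ℝ)) =O[atTop]
        fun m : ℕ => (m : ℝ) ^ P.natDegree := by
      have h2 : (fun x : ℝ => (P.eraseLead * X).eval x) =O[atTop]
          fun x : ℝ => (X ^ P.natDegree : ℝ[X]).eval x := by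
        apply Polynomial.isBigO_atTop_of_degree_le
        by_cases h0 : P.eraseLead = 0
        · rw [h0, zero_mul, degree_zero]
          exact bot_le
        · rw [degree_mul, degree_X, degree_X_pow, degree_eq_natDegree h0]
          have h3 : P.eraseLead.natDegree + 1 ≤ P.natDegree := by
            have h4 : P.eraseLead.degree < P.degree := degree_eraseLead_lt hP
            rw [degree_eq_natDegree h0, degree_eq_natDegree hP] at h4
            have h5 : P.eraseLead.natDegree < P.natDegree := by exact_mod_cast h4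
            omega
          exact_mod_cast h3
      have h3 := h2.comp_tendsto (tendsto_natCast_atTop_atTop (R := ℝ))
      refine h3.congr (fun m => ?_) (fun m => ?_)
      · show (P.eraseLead * X).eval (m : ℝ) = _
        rw [eval_mul, eval_X]
      · show (X ^ P.natDegree : ℝ[X]).eval (m : ℝ) = _
        rw [eval_pow, eval_X]
    obtain ⟨K, hK⟩ := h1.bound
    refine IsBigO.of_bound (K / |P.leadingCoeff|) ?_
    filter_upwards [hK, eventually_ge_atTop 1] with m hm hm1
    have hm0 : (0 : ℝ) < m := by exact_mod_cast hm1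
    rw [norm_mul, Real.norm_of_nonneg hm0.le,
      Real.norm_of_nonneg (by positivity : (0 : ℝ) ≤ (m : ℝ) ^ P.natDegree),
      Real.norm_eq_abs] at hm
    show ‖P.eraseLead.eval (m : ℝ) / (P.leadingCoeff * (m : ℝ) ^ P.natDegree)‖ ≤ _
    unfold iv
    rw [norm_div, norm_mul, Real.norm_of_nonneg (by positivity : (0 : ℝ) ≤ (m : ℝ) ^ P.natDegree),
      Real.norm_of_nonneg (by positivity : (0 : ℝ) ≤ (m : ℝ)⁻¹), Real.norm_eq_abs, Real.norm_eq_abs]
    have hl0 : 0 < |P.leadingCoeff| := abs_pos.2 hlc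
    rw [div_mul_eq_mul_div, div_le_div_iff₀ (by positivity) hl0]
    have h4 : |P.eraseLead.eval (m : ℝ)| ≤ K * (m : ℝ)⁻¹ * (m : ℝ) ^ P.natDegree := by
      have h5 : |P.eraseLead.eval (m : ℝ)| = |P.eraseLead.eval (m : ℝ)| * m * (m : ℝ)⁻¹ := by
        field_simp
      rw [h5]
      calc |P.eraseLead.eval (m : ℝ)| * m * (m : ℝ)⁻¹ ≤
          (K * (m : ℝ) ^ P.natDegree) * (m : ℝ)⁻¹ :=
            mul_le_mul_of_nonneg_right hm (by positivity)
        _ = _ := by ring
    calc |P.eraseLead.eval (m : ℝ)| * |P.leadingCoeff| ≤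
        (K * (m : ℝ)⁻¹ * (m : ℝ) ^ P.natDegree) * |P.leadingCoeff| :=
          mul_le_mul_of_nonneg_right h4 hl0.le
      _ = _ := by ring
  have hu0 : Tendsto u atTop (𝓝 0) :=
    hu.trans_tendsto (tendsto_natCast_atTop_atTop (R := ℝ)).inv_tendsto_atTop
  have hlogu : (fun m : ℕ => Real.log (1 + u m)) =O[atTop] iv := by
    refine IsBigO.trans ?_ hu
    refine IsBigO.of_bound 2 ?_
    have h1 : ∀ᶠ m in atTop, |u m| < 1 / 2 := by
      have h2 := hu0.abs
      rw [abs_zero] at h2
      exact h2.eventually (gt_mem_nhds (by norm_num))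
    filter_upwards [h1] with m hm
    rw [Real.norm_eq_abs, Real.norm_eq_abs]
    have h2 := Real.abs_log_sub_add_sum_range_le (x := -u m) (by rw [abs_neg]; linarith) 0
    rw [Finset.sum_range_zero, zero_add, sub_neg_eq_add, abs_neg, zero_add, pow_one] at h2
    refine h2.trans ?_
    rw [div_le_iff₀ (by linarith)]
    nlinarith [abs_nonneg (u m)]
  refine hlogu.congr' ?_ EventuallyEq.rfl
  have h1 : ∀ᶠ m in atTop, |u m| < 1 / 2 := by
    have h2 := hu0.abs
    rw [abs_zero] at h2
    exact h2.eventually (gt_mem_nhds (by norm_num))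
  filter_upwards [h1, eventually_ge_atTop 1] with m hm hm1
  have hm0 : (m : ℝ) ≠ 0 := by
    have : (0 : ℝ) < m := by exact_mod_cast hm1
    exact this.ne'
  have h2 : 1 + u m ≠ 0 := by
    have h3 := (abs_lt.1 hm).1
    linarith
  rw [hPe m hm1, Real.log_mul (mul_ne_zero hlc (pow_ne_zero _ hm0)) h2,
    Real.log_mul hlc (pow_ne_zero _ hm0), Real.log_pow]
  ring

end Pool.Agent.MSF
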