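import Mathlib

/-!
# MSF, module Aut: endomorphisms of the field of complex numbers which move a transcendental number
-/

set_option autoImplicit false

open Polynomial

namespace Pool.Agent.MSF

/-- extension of an embedding of a domain to an algebraic extension field -/
theorem aut_ext {R S M : Type} [CommRing R] [IsDomain R] [Field S] [Algebra R S]
    [FaithfulSMul R S] [Algebra.IsAlgebraic R S] [Field M] [IsAlgClosed M] (f : R →+* M)
    (hf : Function.Injective f) : ∃ τ : S →+* M, ∀ r : R, τ (algebraMap R S r) = f r := by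
  let _ : Algebra R M := f.toAlgebra
  have hf' : Function.Injective (algebraMap R M) := hf
  have : FaithfulSMul R M := (faithfulSMul_iff_algebraMap_injective R M).2 hf'
  have h1 : Module.IsTorsionFree R S := inferInstance
  have h2 : Module.IsTorsionFree R M := inferInstance
  let τ : S →ₐ[R] M := IsAlgClosed.lift
  exact ⟨τ.toRingHom, fun r => τ.commutes r⟩

open Classical in
/-- the scaling of a variable -/
private noncomputable def aut_sc {t : Type} (b : t) (l : ℚ) :
    MvPolynomial t ℚ →ₐ[ℚ] MvPolynomial t ℚ :=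
  MvPolynomial.aeval fun b' => if b' = b then MvPolynomial.C l * MvPolynomial.X b'
    else MvPolynomial.X b'

private theorem aut_sc_inj {t : Type} (b : t) (l : ℚ) (hl : l ≠ 0) :
    Function.Injective (aut_sc b l) := by
  classical
  have h : (aut_sc b l⁻¹).comp (aut_sc b l) = AlgHom.id ℚ _ := by
    ext b' : 1
    by_cases hb : b' = b
    · simp only [aut_sc, AlgHom.comp_apply, MvPolynomial.aeval_X, if_pos hb, map_mul,
        AlgHom.id_apply]
      rw [MvPolynomial.aeval_C, ← mul_assoc, MvPolynomial.algebraMap_eq, ← MvPolynomial.C_mul,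
        mul_inv_cancel₀ hl, MvPolynomial.C_1, one_mul]
    · simp [aut_sc, hb]
  intro x y hxy
  have h1 := congrArg (aut_sc b l⁻¹) hxy
  rw [← AlgHom.comp_apply, ← AlgHom.comp_apply, h] at h1
  exact h1

/-- a transcendental number `c` can be moved to `2 c` -/
theorem aut (c : ℂ) (hc : Transcendental ℚ c) : ∃ τ : ℂ →+* ℂ, τ c = 2 * c := by
  have hs : AlgebraicIndepOn ℚ id ({c} : Set ℂ) := by
    show AlgebraicIndependent ℚ fun x : ({c} : Set ℂ) => (x : ℂ)
    rw [algebraicIndependent_unique_type_iff]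
    exact hc
  obtain ⟨t, hct, ht⟩ := exists_isTranscendenceBasis_superset hs
  let b : t := ⟨c, hct rfl⟩
  have halg : Algebra.IsAlgebraic (Algebra.adjoin ℚ (Set.range ((↑) : t → ℂ))) ℂ := ht.isAlgebraic
  have hfs : FaithfulSMul (Algebra.adjoin ℚ (Set.range ((↑) : t → ℂ))) ℂ :=
    (faithfulSMul_iff_algebraMap_injective _ _).2 Subtype.val_injective
  let f : Algebra.adjoin ℚ (Set.range ((↑) : t → ℂ)) →+* ℂ :=
    ((MvPolynomial.aeval ((↑) : t → ℂ) : MvPolynomial t ℚ →ₐ[ℚ] ℂ).comp
      ((aut_sc b 2).comp (ht.1.aevalEquiv.symm : _ →ₐ[ℚ] MvPolynomial t ℚ))).toRingHom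
  have hf : Function.Injective f := by
    intro x y hxy
    have h1 : Function.Injective (MvPolynomial.aeval ((↑) : t → ℂ) : MvPolynomial t ℚ →ₐ[ℚ] ℂ) :=
      ht.1
    exact ht.1.aevalEquiv.symm.injective (aut_sc_inj b 2 two_ne_zero (h1 hxy))
  obtain ⟨τ, hτ⟩ := aut_ext (S := ℂ) f hf
  refine ⟨τ, ?_⟩
  have hcm : c ∈ Algebra.adjoin ℚ (Set.range ((↑) : t → ℂ)) :=
    Algebra.subset_adjoin ⟨b, rfl⟩
  have h1 := hτ ⟨c, hcm⟩
  have h2 : ht.1.aevalEquiv.symm ⟨c, hcm⟩ = MvPolynomial.X b := by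
    rw [AlgEquiv.symm_apply_eq]
    apply Subtype.ext
    rw [AlgebraicIndependent.aevalEquiv_apply_coe, MvPolynomial.aeval_X]
  have h3 : f ⟨c, hcm⟩ = 2 * c := by
    show (MvPolynomial.aeval ((↑) : t → ℂ) : MvPolynomial t ℚ →ₐ[ℚ] ℂ)
      (aut_sc b 2 (ht.1.aevalEquiv.symm ⟨c, hcm⟩)) = 2 * c
    rw [h2]
    simp [aut_sc, b]
  rw [h3] at h1
  exact h1

end Pool.Agent.MSF
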