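import Pool.Agent.MSF.Asy2

/-!
# MSF, module Brn: growth of sequences of Barnes type, comparison
-/

set_option autoImplicit false

open Polynomial Filter Asymptotics Topology

namespace Pool.Agent.MSF

/-- `E` is of Barnes type: some power of the second multiplicative difference is a rational
function -/
def Barnes (E : ℕ → ℂ) : Prop :=
  ∃ (s : ℕ) (P S : ℂ[X]), 1 ≤ s ∧ P ≠ 0 ∧ S ≠ 0 ∧ ∀ᶠ n : ℕ in atTop, E n ≠ 0 ∧
    (E (n + 2) * E n) ^ s * S.eval (n : ℂ) = P.eval (n : ℂ) * E (n + 1) ^ (2 * s)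

/-! ### logarithms of complex polynomials -/

/-- the sum of the absolute values of the lower coefficients -/
private theorem low_le (P : ℂ[X]) (n : ℕ) (hn : 1 ≤ n) :
    ‖P.eval (n : ℂ) - P.leadingCoeff * (n : ℂ) ^ P.natDegree‖ * n ≤
      (∑ i ∈ Finset.range P.natDegree, ‖P.coeff i‖) * (n : ℝ) ^ P.natDegree := by
  have hn0 : (1 : ℝ) ≤ n := by exact_mod_cast hn
  rw [eval_eq_sum_range, Finset.sum_range_succ]
  have h1 : ∑ i ∈ Finset.range P.natDegree, P.coeff i * (n : ℂ) ^ i +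
      P.coeff P.natDegree * (n : ℂ) ^ P.natDegree - P.leadingCoeff * (n : ℂ) ^ P.natDegree =
      ∑ i ∈ Finset.range P.natDegree, P.coeff i * (n : ℂ) ^ i := by
    rw [coeff_natDegree]
    ring
  rw [h1]
  have h2 : ‖∑ i ∈ Finset.range P.natDegree, P.coeff i * (n : ℂ) ^ i‖ ≤
      ∑ i ∈ Finset.range P.natDegree, ‖P.coeff i‖ * (n : ℝ) ^ i := by
    refine (norm_sum_le _ _).trans (Finset.sum_le_sum fun i _ => ?_)
    rw [norm_mul, norm_pow, Complex.norm_natCast]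
  refine (mul_le_mul_of_nonneg_right h2 (by positivity)).trans ?_
  rw [Finset.sum_mul, Finset.sum_mul]
  refine Finset.sum_le_sum fun i hi => ?_
  rw [mul_assoc]
  refine mul_le_mul_of_nonneg_left ?_ (norm_nonneg _)
  rw [← pow_succ]
  exact pow_le_pow_right₀ hn0 (Finset.mem_range.1 hi)

theorem cpoly_log (P : ℂ[X]) (hP : P ≠ 0) :
    (fun n : ℕ => Real.log ‖P.eval (n : ℂ)‖ -
      (P.natDegree * Real.log n + Real.log ‖P.leadingCoeff‖)) =O[atTop] iv := by
  have hlc : 0 < ‖P.leadingCoeff‖ := norm_pos_iff.2 (leadingCoeff_ne_zero.2 hP)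
  set K : ℝ := ∑ i ∈ Finset.range P.natDegree, ‖P.coeff i‖ with hK
  have hK0 : 0 ≤ K := Finset.sum_nonneg fun i _ => norm_nonneg _
  -- the relative error
  let t : ℕ → ℝ := fun n => ‖P.eval (n : ℂ)‖ / (‖P.leadingCoeff‖ * (n : ℝ) ^ P.natDegree) - 1
  have ht : ∀ n : ℕ, 1 ≤ n → |t n| ≤ K / ‖P.leadingCoeff‖ * (n : ℝ)⁻¹ := by
    intro n hn
    have hn0 : (0 : ℝ) < n := by exact_mod_cast hn
    have h1 := low_le P n hn
    have h2 : |‖P.eval (n : ℂ)‖ - ‖P.leadingCoeff‖ * (n : ℝ) ^ P.natDegree| ≤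
        ‖P.eval (n : ℂ) - P.leadingCoeff * (n : ℂ) ^ P.natDegree‖ := by
      have h3 := abs_norm_sub_norm_le (P.eval (n : ℂ))
        (P.leadingCoeff * (n : ℂ) ^ P.natDegree)
      rw [norm_mul, norm_pow, Complex.norm_natCast] at h3
      exact h3
    have h3 : t n = (‖P.eval (n : ℂ)‖ - ‖P.leadingCoeff‖ * (n : ℝ) ^ P.natDegree) /
        (‖P.leadingCoeff‖ * (n : ℝ) ^ P.natDegree) := by
      show ‖P.eval (n : ℂ)‖ / (‖P.leadingCoeff‖ * (n : ℝ) ^ P.natDegree) - 1 = _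
      field_simp
    rw [h3, abs_div, abs_of_pos (by positivity : 0 < ‖P.leadingCoeff‖ * (n : ℝ) ^ P.natDegree),
      div_le_iff₀ (by positivity)]
    have h4 : K / ‖P.leadingCoeff‖ * (n : ℝ)⁻¹ * (‖P.leadingCoeff‖ * (n : ℝ) ^ P.natDegree) =
        K * (n : ℝ) ^ P.natDegree * (n : ℝ)⁻¹ := by
      field_simp
    rw [h4]
    refine h2.trans ?_
    rw [← div_eq_mul_inv, le_div_iff₀ hn0]
    exact h1
  have htO : t =O[atTop] iv := by
    refine IsBigO.of_bound (K / ‖P.leadingCoeff‖) ?_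
    filter_upwards [eventually_ge_atTop 1] with n hn
    unfold iv
    rw [Real.norm_eq_abs, Real.norm_of_nonneg (by positivity)]
    exact ht n hn
  have ht0 : Tendsto t atTop (𝓝 0) :=
    htO.trans_tendsto (tendsto_natCast_atTop_atTop (R := ℝ)).inv_tendsto_atTop
  have h1 : ∀ᶠ n in atTop, |t n| < 1 / 2 := by
    have h2 := ht0.abs
    rw [abs_zero] at h2
    exact h2.eventually (gt_mem_nhds (by norm_num))
  have hlogt : (fun n : ℕ => Real.log (1 + t n)) =O[atTop] iv := by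
    refine IsBigO.trans ?_ htO
    refine IsBigO.of_bound 2 ?_
    filter_upwards [h1] with n hn
    rw [Real.norm_eq_abs, Real.norm_eq_abs]
    have h2 := Real.abs_log_sub_add_sum_range_le (x := -t n) (by rw [abs_neg]; linarith) 0
    rw [Finset.sum_range_zero, zero_add, sub_neg_eq_add, abs_neg, zero_add, pow_one] at h2
    refine h2.trans ?_
    rw [div_le_iff₀ (by linarith)]
    nlinarith [abs_nonneg (t n)]
  refine hlogt.congr' ?_ EventuallyEq.rfl
  filter_upwards [h1, eventually_ge_atTop 1] with n hn hn1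
  have hn0 : (0 : ℝ) < n := by exact_mod_cast hn1
  have h2 : 0 < 1 + t n := by
    have h3 := (abs_lt.1 hn).1
    linarith
  have h3 : ‖P.eval (n : ℂ)‖ = ‖P.leadingCoeff‖ * (n : ℝ) ^ P.natDegree * (1 + t n) := by
    show _ = ‖P.leadingCoeff‖ * (n : ℝ) ^ P.natDegree *
      (1 + (‖P.eval (n : ℂ)‖ / (‖P.leadingCoeff‖ * (n : ℝ) ^ P.natDegree) - 1))
    field_simp
    ring
  rw [h3, Real.log_mul (by positivity) h2.ne', Real.log_mul hlc.ne' (by positivity), Real.log_pow]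
  ring

theorem poly_ne (P : ℂ[X]) (hP : P ≠ 0) : ∀ᶠ n : ℕ in atTop, P.eval (n : ℂ) ≠ 0 := by
  have h1 : Set.Finite {n : ℕ | P.eval (n : ℂ) = 0} := by
    have h2 : Set.Finite {x : ℂ | P.IsRoot x} := Polynomial.finite_setOfPred_isRoot hP
    exact h2.preimage (Nat.cast_injective (R := ℂ)).injOn
  have h3 := h1.compl_mem_cofinite
  rw [Nat.cofinite_eq_atTop] at h3
  exact h3

/-! ### comparison -/

/-- the coefficients from the second difference -/
theorem Av.of_D2 {y : ℕ → ℝ} {k l : ℝ}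
    (h : (fun m : ℕ => y (m + 2) - 2 * y (m + 1) + y m - (k * Real.log m + l)) =O[atTop] iv) :
    Av y (k / 2) ((l - 3 * k / 2) / 2) := by
  let μ : ℝ := (l - 3 * k / 2) / 2
  let z : ℕ → ℝ := fun m => y m - (k / 2) * f2 m - μ * (m : ℝ) ^ 2
  have h1 : (fun m : ℕ => (z (m + 1 + 1) - z (m + 1)) - (z (m + 1) - z m)) =O[atTop] iv := by
    have h2 := h.sub (D2_f2.const_mul_left (k / 2))
    refine h2.congr_left fun m => ?_
    show _ = (y (m + 2) - (k / 2) * f2 (m + 2) - μ * ((m + 2 : ℕ) : ℝ) ^ 2 -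
      (y (m + 1) - (k / 2) * f2 (m + 1) - μ * ((m + 1 : ℕ) : ℝ) ^ 2)) -
      ((y (m + 1) - (k / 2) * f2 (m + 1) - μ * ((m + 1 : ℕ) : ℝ) ^ 2) -
      (y m - (k / 2) * f2 m - μ * (m : ℝ) ^ 2))
    have h3 : l = 2 * μ + 3 * k / 2 := by
      show l = 2 * ((l - 3 * k / 2) / 2) + 3 * k / 2
      ring
    rw [h3]
    push_cast
    ring
  have h2 := sum_log (sum_iv (x := fun m => z (m + 1) - z m) h1)
  refine h2.congr_left fun m => ?_
  show y m - (k / 2) * f2 m - μ * (m : ℝ) ^ 2 = _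
  ring

theorem Av.one_sided {x : ℕ → ℝ} {A B : ℝ} (h : Av x A B)
    (hx : ∀ ε : ℝ, 0 < ε → ∃ᶠ n : ℕ in atTop, x n ≤ ε * (n : ℝ) ^ 2) :
    A ≤ 0 ∧ (A = 0 → B ≤ 0) := by
  have hlog : Tendsto (fun m : ℕ => (Real.log m)⁻¹) atTop (𝓝 0) :=
    (Real.tendsto_log_atTop.comp tendsto_natCast_atTop_atTop).inv_tendsto_atTop
  have hinv : Tendsto (fun m : ℕ => (m : ℝ)⁻¹) atTop (𝓝 0) :=
    tendsto_natCast_atTop_atTop.inv_tendsto_atTop
  have hlm : Tendsto (fun m : ℕ => Real.log m * (m : ℝ)⁻¹) atTop (𝓝 0) := by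
    have h2 := (Real.isLittleO_log_id_atTop.comp_tendsto
      (tendsto_natCast_atTop_atTop (R := ℝ))).tendsto_div_nhds_zero
    exact h2
  constructor
  · by_contra hA
    push Not at hA
    have h2 : (fun m : ℕ => x m * (f2 m)⁻¹ - A - B * (Real.log m)⁻¹) =O[atTop]
        fun m : ℕ => (m : ℝ)⁻¹ := by
      have h3 := IsBigO.mul h (isBigO_refl (fun m : ℕ => (f2 m)⁻¹) atTop)
      refine (h3.congr' ?_ ?_)
      · filter_upwards [eventually_ge_atTop 3] with m hm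
        have h4 := log_ge m hm
        have h5 : (m : ℝ) ≠ 0 := by
          have : (3 : ℝ) ≤ m := by exact_mod_cast hm
          positivity
        have h6 : Real.log m ≠ 0 := by positivity
        unfold f2
        field_simp
        ring
      · filter_upwards [eventually_ge_atTop 3] with m hm
        have h4 := log_ge m hm
        have h5 : (m : ℝ) ≠ 0 := by
          have : (3 : ℝ) ≤ m := by exact_mod_cast hm
          positivity
        have h6 : Real.log m ≠ 0 := by positivity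
        unfold f2 lm
        field_simp
    have h3 := h2.trans_tendsto hinv
    have h4 : Tendsto (fun m : ℕ => x m * (f2 m)⁻¹ - (Real.log m)⁻¹) atTop (𝓝 A) := by
      have h5 := (h3.add (hlog.const_mul (B - 1))).add_const A
      have h6 : (0 : ℝ) + (B - 1) * 0 + A = A := by ring
      rw [h6] at h5
      refine h5.congr fun m => ?_
      ring
    have h5 : ∀ᶠ m : ℕ in atTop, 0 < x m * (f2 m)⁻¹ - (Real.log m)⁻¹ :=
      h4.eventually (lt_mem_nhds hA)
    obtain ⟨m, hm1, hm2, hm3⟩ := ((hx 1 one_pos).and_eventually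
      (h5.and (eventually_ge_atTop 3))).exists
    have h6 := log_ge m hm3
    have h7 : (0 : ℝ) < m := by
      have : (3 : ℝ) ≤ m := by exact_mod_cast hm3
      linarith
    have h8 : 0 < Real.log m := by linarith
    have h9 : 0 < f2 m := by
      unfold f2
      positivity
    have h10 : x m * (f2 m)⁻¹ ≤ (Real.log m)⁻¹ := by
      have h11 : x m * (f2 m)⁻¹ ≤ (1 * (m : ℝ) ^ 2) * (f2 m)⁻¹ :=
        mul_le_mul_of_nonneg_right hm1 (by positivity)
      have h12 : (1 * (m : ℝ) ^ 2) * (f2 m)⁻¹ = (Real.log m)⁻¹ := by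
        unfold f2
        field_simp
      rwa [h12] at h11
    linarith
  · intro hA
    subst hA
    by_contra hB
    push Not at hB
    have h2 : (fun m : ℕ => x m * ((m : ℝ) ^ 2)⁻¹ - B) =O[atTop]
        fun m : ℕ => Real.log m * (m : ℝ)⁻¹ := by
      have h3 := IsBigO.mul h (isBigO_refl (fun m : ℕ => ((m : ℝ) ^ 2)⁻¹) atTop)
      refine (h3.congr' ?_ ?_)
      · filter_upwards [eventually_ge_atTop 3] with m hm
        have h5 : (m : ℝ) ≠ 0 := by
          have : (3 : ℝ) ≤ m := by exact_mod_cast hm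
          positivity
        field_simp
        ring
      · filter_upwards [eventually_ge_atTop 3] with m hm
        have h5 : (m : ℝ) ≠ 0 := by
          have : (3 : ℝ) ≤ m := by exact_mod_cast hm
          positivity
        unfold lm
        field_simp
    have h3 := (h2.trans_tendsto hlm).add_const B
    rw [zero_add] at h3
    have h4 : ∀ᶠ m : ℕ in atTop, B / 2 < x m * ((m : ℝ) ^ 2)⁻¹ - B + B :=
      h3.eventually (lt_mem_nhds (by linarith))
    obtain ⟨m, hm1, hm2, hm3⟩ := ((hx (B / 2) (by linarith)).and_eventually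
      (h4.and (eventually_ge_atTop 1))).exists
    have h7 : (0 : ℝ) < m := by exact_mod_cast hm3
    have h8 : x m * ((m : ℝ) ^ 2)⁻¹ ≤ B / 2 := by
      have h9 : x m * ((m : ℝ) ^ 2)⁻¹ ≤ (B / 2 * (m : ℝ) ^ 2) * ((m : ℝ) ^ 2)⁻¹ :=
        mul_le_mul_of_nonneg_right hm1 (by positivity)
      have h10 : (B / 2 * (m : ℝ) ^ 2) * ((m : ℝ) ^ 2)⁻¹ = B / 2 := by
        field_simp
      rwa [h10] at h9
    linarith

/-- comparison of the growth of both sides of the identity -/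
theorem cmp {Y : ℕ → ℝ} {α β : ℝ} (hY : Av Y α β) {E u v : ℕ → ℂ} {s : ℕ} {P S : ℂ[X]}
    (hs : 1 ≤ s) (hP : P ≠ 0) (hS : S ≠ 0)
    (hE : ∀ᶠ n : ℕ in atTop, E n ≠ 0 ∧
      (E (n + 2) * E n) ^ s * S.eval (n : ℂ) = P.eval (n : ℂ) * E (n + 1) ^ (2 * s))
    (huU : ∀ ε : ℝ, 0 < ε → ∀ᶠ n : ℕ in atTop, ‖u n‖ ≤ Real.exp (ε * (n : ℝ) ^ 2))
    (huL : ∀ ε : ℝ, 0 < ε → ∃ᶠ n : ℕ in atTop, Real.exp (-(ε * (n : ℝ) ^ 2)) ≤ ‖u n‖)
    (hvU : ∀ ε : ℝ, 0 < ε → ∀ᶠ n : ℕ in atTop, ‖v n‖ ≤ Real.exp (ε * (n : ℝ) ^ 2))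
    (hvL : ∀ ε : ℝ, 0 < ε → ∃ᶠ n : ℕ in atTop, Real.exp (-(ε * (n : ℝ) ^ 2)) ≤ ‖v n‖)
    (hid : ∀ᶠ n : ℕ in atTop, ((Real.exp (Y n) : ℝ) : ℂ) * v n = E n * u n) :
    Real.log ‖P.leadingCoeff‖ - Real.log ‖S.leadingCoeff‖ = s * (2 * β + 3 * α) := by
  have hs0 : (0 : ℝ) < s := by exact_mod_cast hs
  set k : ℝ := (P.natDegree : ℝ) - S.natDegree with hk
  set l : ℝ := Real.log ‖P.leadingCoeff‖ - Real.log ‖S.leadingCoeff‖ with hl
  let L : ℕ → ℝ := fun n => Real.log ‖E n‖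
  -- the growth of `E`
  have hL : Av (fun n => s * L n) (k / 2) ((l - 3 * k / 2) / 2) := by
    apply Av.of_D2
    have h1 := (cpoly_log P hP).sub (cpoly_log S hS)
    refine h1.congr' ?_ EventuallyEq.rfl
    have hE1 := (tendsto_add_atTop_nat 1).eventually hE
    have hE2 := (tendsto_add_atTop_nat 2).eventually hE
    filter_upwards [hE, hE1, hE2, poly_ne P hP, poly_ne S hS] with n h2 h3 h4 h5 h6
    have h7 : Real.log ‖(E (n + 2) * E n) ^ s * S.eval (n : ℂ)‖ =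
        Real.log ‖P.eval (n : ℂ) * E (n + 1) ^ (2 * s)‖ := by rw [h2.2]
    have h8 : Real.log ‖(E (n + 2) * E n) ^ s * S.eval (n : ℂ)‖ =
        s * (L (n + 2) + L n) + Real.log ‖S.eval (n : ℂ)‖ := by
      rw [norm_mul, norm_pow, norm_mul, Real.log_mul
        (pow_ne_zero _ (mul_ne_zero (norm_ne_zero_iff.2 h4.1) (norm_ne_zero_iff.2 h2.1)))
        (norm_ne_zero_iff.2 h6), Real.log_pow, Real.log_mul (norm_ne_zero_iff.2 h4.1)
        (norm_ne_zero_iff.2 h2.1)]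
    have h9 : Real.log ‖P.eval (n : ℂ) * E (n + 1) ^ (2 * s)‖ =
        Real.log ‖P.eval (n : ℂ)‖ + 2 * s * L (n + 1) := by
      rw [norm_mul, norm_pow, Real.log_mul (norm_ne_zero_iff.2 h5)
        (pow_ne_zero _ (norm_ne_zero_iff.2 h3.1)), Real.log_pow]
      push_cast
      ring
    rw [h8, h9] at h7
    rw [hk, hl]
    linear_combination -h7
  -- frequent inequalities
  have hup : ∀ ε : ℝ, 0 < ε → ∃ᶠ n : ℕ in atTop, L n - Y n ≤ ε * (n : ℝ) ^ 2 := by
    intro ε hε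
    refine ((huL (ε / 2) (by linarith)).and_eventually
      ((hvU (ε / 2) (by linarith)).and (hE.and hid))).mono ?_
    rintro n ⟨h1, h2, h3, h4⟩
    have h5 := congrArg (fun z : ℂ => ‖z‖) h4
    have h6 : Real.exp (Y n) * ‖v n‖ = ‖E n‖ * ‖u n‖ := by
      have h7 : ‖((Real.exp (Y n) : ℝ) : ℂ) * v n‖ = ‖E n * u n‖ := h5
      rw [norm_mul, norm_mul, Complex.norm_real, Real.norm_of_nonneg (Real.exp_pos _).le] at h7
      exact h7
    have hE0 : 0 < ‖E n‖ := norm_pos_iff.2 h3.1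
    have h7 : ‖E n‖ * Real.exp (-(ε / 2 * (n : ℝ) ^ 2)) ≤
        Real.exp (Y n) * Real.exp (ε / 2 * (n : ℝ) ^ 2) := by
      calc ‖E n‖ * Real.exp (-(ε / 2 * (n : ℝ) ^ 2)) ≤ ‖E n‖ * ‖u n‖ :=
            mul_le_mul_of_nonneg_left h1 hE0.le
        _ = Real.exp (Y n) * ‖v n‖ := h6.symm
        _ ≤ _ := mul_le_mul_of_nonneg_left h2 (Real.exp_pos _).le
    have h8 : ‖E n‖ ≤ Real.exp (Y n + ε * (n : ℝ) ^ 2) := by
      have h9 : Real.exp (Y n + ε * (n : ℝ) ^ 2) = Real.exp (Y n) *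
          Real.exp (ε / 2 * (n : ℝ) ^ 2) * Real.exp (ε / 2 * (n : ℝ) ^ 2) := by
        rw [← Real.exp_add, ← Real.exp_add]
        congr 1
        ring
      have h10 : ‖E n‖ = ‖E n‖ * Real.exp (-(ε / 2 * (n : ℝ) ^ 2)) *
          Real.exp (ε / 2 * (n : ℝ) ^ 2) := by
        rw [mul_assoc, ← Real.exp_add, neg_add_cancel, Real.exp_zero, mul_one]
      rw [h9, h10]
      exact mul_le_mul_of_nonneg_right h7 (Real.exp_pos _).le
    have h9 := Real.log_le_log hE0 h8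
    rw [Real.log_exp] at h9
    show Real.log ‖E n‖ - Y n ≤ _
    linarith
  have hlo : ∀ ε : ℝ, 0 < ε → ∃ᶠ n : ℕ in atTop, Y n - L n ≤ ε * (n : ℝ) ^ 2 := by
    intro ε hε
    refine ((hvL (ε / 2) (by linarith)).and_eventually
      ((huU (ε / 2) (by linarith)).and (hE.and hid))).mono ?_
    rintro n ⟨h1, h2, h3, h4⟩
    have h5 := congrArg (fun z : ℂ => ‖z‖) h4
    have h6 : Real.exp (Y n) * ‖v n‖ = ‖E n‖ * ‖u n‖ := by
      have h7 : ‖((Real.exp (Y n) : ℝ) : ℂ) * v n‖ = ‖E n * u n‖ := h5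
      rw [norm_mul, norm_mul, Complex.norm_real, Real.norm_of_nonneg (Real.exp_pos _).le] at h7
      exact h7
    have hE0 : 0 < ‖E n‖ := norm_pos_iff.2 h3.1
    have h7 : Real.exp (Y n) * Real.exp (-(ε / 2 * (n : ℝ) ^ 2)) ≤
        ‖E n‖ * Real.exp (ε / 2 * (n : ℝ) ^ 2) := by
      calc Real.exp (Y n) * Real.exp (-(ε / 2 * (n : ℝ) ^ 2)) ≤ Real.exp (Y n) * ‖v n‖ :=
            mul_le_mul_of_nonneg_left h1 (Real.exp_pos _).le
        _ = ‖E n‖ * ‖u n‖ := h6
        _ ≤ _ := mul_le_mul_of_nonneg_left h2 hE0.le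
    have h8 : Real.exp (Y n - ε * (n : ℝ) ^ 2) ≤ ‖E n‖ := by
      have h9 : Real.exp (Y n - ε * (n : ℝ) ^ 2) = Real.exp (Y n) *
          Real.exp (-(ε / 2 * (n : ℝ) ^ 2)) * Real.exp (-(ε / 2 * (n : ℝ) ^ 2)) := by
        rw [← Real.exp_add, ← Real.exp_add]
        congr 1
        ring
      have h10 : ‖E n‖ = ‖E n‖ * Real.exp (ε / 2 * (n : ℝ) ^ 2) *
          Real.exp (-(ε / 2 * (n : ℝ) ^ 2)) := by
        rw [mul_assoc, ← Real.exp_add, add_neg_cancel, Real.exp_zero, mul_one]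
      rw [h9, h10]
      exact mul_le_mul_of_nonneg_right h7 (Real.exp_pos _).le
    have h9 := Real.log_le_log (Real.exp_pos _) h8
    rw [Real.log_exp] at h9
    show Y n - Real.log ‖E n‖ ≤ _
    linarith
  -- comparison
  have hL' : Av L (k / 2 / s) ((l - 3 * k / 2) / 2 / s) := by
    have h1 := hL.smul (1 / s)
    have h2 : (fun m => 1 / (s : ℝ) * (s * L m)) = L := by
      funext m
      field_simp
    rw [h2] at h1
    have h3 : 1 / (s : ℝ) * (k / 2) = k / 2 / s := by ring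
    have h4 : 1 / (s : ℝ) * ((l - 3 * k / 2) / 2) = (l - 3 * k / 2) / 2 / s := by ring
    rw [h3, h4] at h1
    exact h1
  have hx1 : Av (fun n => L n - Y n) (k / 2 / s - α) ((l - 3 * k / 2) / 2 / s - β) := by
    have h1 := hL'.add (hY.smul (-1))
    have h2 : (fun m => L m + -1 * Y m) = fun n => L n - Y n := by
      funext m
      ring
    rw [h2] at h1
    have h3 : k / 2 / s + -1 * α = k / 2 / s - α := by ring
    have h4 : (l - 3 * k / 2) / 2 / s + -1 * β = (l - 3 * k / 2) / 2 / s - β := by ring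
    rw [h3, h4] at h1
    exact h1
  have hx2 : Av (fun n => Y n - L n) (α - k / 2 / s) (β - (l - 3 * k / 2) / 2 / s) := by
    have h1 := hx1.smul (-1)
    have h2 : (fun m => -1 * (L m - Y m)) = fun n => Y n - L n := by
      funext m
      ring
    rw [h2] at h1
    have h3 : -1 * (k / 2 / s - α) = α - k / 2 / s := by ring
    have h4 : -1 * ((l - 3 * k / 2) / 2 / s - β) = β - (l - 3 * k / 2) / 2 / s := by ring
    rw [h3, h4] at h1
    exact h1
  obtain ⟨h1, h2⟩ := hx1.one_sided hup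
  obtain ⟨h3, h4⟩ := hx2.one_sided hlo
  have h5 : k / 2 / s - α = 0 := by linarith
  have h6 : (l - 3 * k / 2) / 2 / s - β = 0 := by
    have h7 := h2 h5
    have h8 := h4 (by linarith)
    linarith
  have h7 : k = 2 * s * α := by
    have h8 : k / 2 / s = α := by linarith
    rw [← h8]
    field_simp
  have h8 : l - 3 * k / 2 = 2 * s * β := by
    have h9 : (l - 3 * k / 2) / 2 / s = β := by linarith
    rw [← h9]
    field_simp
  rw [h7] at h8
  linarith

end Pool.Agent.MSF
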