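import Mathlib

/-!
# MSF, module Desc: a real rational function with rational values at the large integers has a
rational leading coefficient
-/

set_option autoImplicit false

open Polynomial Filter

namespace Pool.Agent.MSF

/-- the polynomial with the coefficients `φ (coefficient)` -/
private noncomputable def mp (φ : ℝ →ₗ[ℚ] ℚ) (P : ℝ[X]) : ℚ[X] :=
  ∑ i ∈ Finset.range (P.natDegree + 1), monomial i (φ (P.coeff i))

private theorem mp_eval (φ : ℝ →ₗ[ℚ] ℚ) (P : ℝ[X]) (m : ℕ) (q : ℚ) :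
    q * (mp φ P).eval (m : ℚ) = φ ((q : ℝ) * P.eval (m : ℝ)) := by
  have h1 : (q : ℝ) * P.eval (m : ℝ) = q • ∑ i ∈ Finset.range (P.natDegree + 1),
      ((m : ℚ) ^ i) • P.coeff i := by
    rw [Rat.smul_def, eval_eq_sum_range]
    congr 1
    refine Finset.sum_congr rfl fun i _ => ?_
    rw [Rat.smul_def]
    push_cast
    ring
  rw [h1, map_smul, map_sum, smul_eq_mul]
  congr 1
  unfold mp
  rw [eval_finsetSum]
  refine Finset.sum_congr rfl fun i _ => ?_
  rw [eval_monomial, map_smul, smul_eq_mul]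
  ring

private theorem mp_coeff (φ : ℝ →ₗ[ℚ] ℚ) (P : ℝ[X]) :
    (mp φ P).coeff P.natDegree = φ P.leadingCoeff := by
  unfold mp
  rw [finsetSum_coeff]
  rw [Finset.sum_eq_single P.natDegree]
  · rw [coeff_monomial, if_pos rfl]
    rfl
  · intro i _ hi
    rw [coeff_monomial, if_neg hi]
  · intro h
    exact absurd (Finset.mem_range.2 (Nat.lt_succ_self _)) h

/-- descent -/
theorem lead_rat (P S : ℝ[X]) (hS : S ≠ 0)
    (h : ∀ᶠ m : ℕ in atTop, ∃ q : ℚ, P.eval (m : ℝ) = q * S.eval (m : ℝ)) :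
    ∃ q : ℚ, P.leadingCoeff / S.leadingCoeff = q := by
  have hlc : S.leadingCoeff ≠ 0 := leadingCoeff_ne_zero.2 hS
  obtain ⟨φ, hφ⟩ : ∃ φ : ℝ →ₗ[ℚ] ℚ, φ S.leadingCoeff ≠ 0 := by
    by_contra hcon
    push Not at hcon
    exact hlc ((Module.forall_dual_apply_eq_zero_iff ℚ S.leadingCoeff).1 hcon)
  have hS' : mp φ S ≠ 0 := by
    intro h0
    apply hφ
    rw [← mp_coeff, h0, coeff_zero]
  -- the polynomial identity
  have hid : (mp φ P).map (algebraMap ℚ ℝ) * S = P * (mp φ S).map (algebraMap ℚ ℝ) := by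
    refine Polynomial.eq_of_infinite_eval_eq _ _ ?_
    obtain ⟨N, hN⟩ := eventually_atTop.1 h
    refine Set.infinite_of_injective_forall_mem (f := fun k : ℕ => ((N + k : ℕ) : ℝ)) ?_ ?_
    · intro a b hab
      have h1 : ((N + a : ℕ) : ℝ) = ((N + b : ℕ) : ℝ) := hab
      have h2 : N + a = N + b := by exact_mod_cast h1
      omega
    · intro k
      obtain ⟨q, hq⟩ := hN (N + k) (by omega)
      have h1 := mp_eval φ P (N + k) 1
      have h2 := mp_eval φ S (N + k) q
      rw [← hq] at h2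
      rw [Rat.cast_one, one_mul, one_mul] at h1
      rw [← h1] at h2
      have h3 : ∀ R : ℚ[X], (R.map (algebraMap ℚ ℝ)).eval (((N + k : ℕ) : ℝ)) =
          ((R.eval ((N + k : ℕ) : ℚ) : ℚ) : ℝ) := by
        intro R
        have h4 := Polynomial.eval_map_apply (f := algebraMap ℚ ℝ) (p := R) ((N + k : ℕ) : ℚ)
        simpa using h4
      show ((mp φ P).map (algebraMap ℚ ℝ) * S).eval (((N + k : ℕ) : ℝ)) =
        (P * (mp φ S).map (algebraMap ℚ ℝ)).eval (((N + k : ℕ) : ℝ))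
      rw [eval_mul, eval_mul, h3, h3, ← h2, hq]
      push_cast
      ring
  have hlead := congrArg leadingCoeff hid
  rw [leadingCoeff_mul, leadingCoeff_mul, leadingCoeff_map, leadingCoeff_map] at hlead
  have hl' : ((mp φ S).leadingCoeff : ℝ) ≠ 0 := by
    exact_mod_cast leadingCoeff_ne_zero.2 hS'
  refine ⟨(mp φ P).leadingCoeff / (mp φ S).leadingCoeff, ?_⟩
  rw [Rat.cast_div, div_eq_div_iff hlc hl']
  have e1 : algebraMap ℚ ℝ (mp φ P).leadingCoeff = (((mp φ P).leadingCoeff : ℚ) : ℝ) := rfl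
  have e2 : algebraMap ℚ ℝ (mp φ S).leadingCoeff = (((mp φ S).leadingCoeff : ℚ) : ℝ) := rfl
  rw [e1, e2] at hlead
  linear_combination -hlead

end Pool.Agent.MSF
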