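import Mathlib

/-!
# MSF, module PRec: growth of P-recursive sequences
-/

set_option autoImplicit false

open Polynomial Filter

namespace Pool.Agent.MSF

/-- P-recursive (holonomic) sequences of complex numbers: they satisfy a linear recurrence
`∑ j, q_j(n) u(n + j) = 0`, for all large `n`, with polynomial coefficients `q_j`, not all zero. -/
def PRec (u : ℕ → ℂ) : Prop :=
  ∃ (J : ℕ) (q : ℕ → Polynomial ℂ), (∃ j ≤ J, q j ≠ 0) ∧
    ∀ᶠ n : ℕ in atTop, ∑ j ∈ Finset.range (J + 1), (q j).eval (n : ℂ) * u (n + j) = 0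

/-- an endomorphism of the field of complex numbers maps P-recursive sequences to P-recursive
sequences -/
theorem PRec.map {u : ℕ → ℂ} (h : PRec u) (τ : ℂ →+* ℂ) : PRec fun n => τ (u n) := by
  obtain ⟨J, q, ⟨i, hi, hqi⟩, hrec⟩ := h
  refine ⟨J, fun j => (q j).map τ, ⟨i, hi, ?_⟩, ?_⟩
  · exact (Polynomial.map_ne_zero_iff τ.injective).2 hqi
  · filter_upwards [hrec] with n hn
    have h1 := congrArg τ hn
    rw [map_zero, map_sum] at h1
    rw [← h1]
    refine Finset.sum_congr rfl fun j _ => ?_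
    rw [map_mul, Polynomial.eval_natCast_map]

/-- a geometric factor -/
theorem PRec.geom {u : ℕ → ℂ} (h : PRec u) (c l : ℂ) (hl : l ≠ 0) :
    PRec fun n => c * l ^ n * u n := by
  obtain ⟨J, q, ⟨i, hi, hqi⟩, hrec⟩ := h
  refine ⟨J, fun j => C (l⁻¹ ^ j) * q j, ⟨i, hi, ?_⟩, ?_⟩
  · exact mul_ne_zero (C_ne_zero.2 (pow_ne_zero _ (inv_ne_zero hl))) hqi
  · filter_upwards [hrec] with n hn
    have h1 : ∑ j ∈ Finset.range (J + 1), (C (l⁻¹ ^ j) * q j).eval (n : ℂ) *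
        (c * l ^ (n + j) * u (n + j)) =
        c * l ^ n * ∑ j ∈ Finset.range (J + 1), (q j).eval (n : ℂ) * u (n + j) := by
      rw [Finset.mul_sum]
      refine Finset.sum_congr rfl fun j _ => ?_
      rw [eval_mul, eval_C, pow_add]
      have h2 : l⁻¹ ^ j * l ^ j = 1 := by
        rw [← mul_pow, inv_mul_cancel₀ hl, one_pow]
      linear_combination (c * l ^ n * (q j).eval (n : ℂ) * u (n + j)) * h2
    rw [h1, hn, mul_zero]

/-! ### polynomial bounds -/

private theorem prec_up (p : ℂ[X]) : ∃ D : ℕ, ∀ᶠ n : ℕ in atTop, ‖p.eval (n : ℂ)‖ ≤ (n : ℝ) ^ D := by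
  let S : ℝ := ∑ i ∈ Finset.range (p.natDegree + 1), ‖p.coeff i‖
  refine ⟨p.natDegree + 1, ?_⟩
  filter_upwards [eventually_ge_atTop (⌈S⌉₊ + 1)] with n hn
  have hn1 : (1 : ℝ) ≤ n := by exact_mod_cast (by omega : 1 ≤ n)
  have hS : S ≤ n := (Nat.le_ceil S).trans (by exact_mod_cast (by omega : ⌈S⌉₊ ≤ n))
  rw [eval_eq_sum_range]
  refine (norm_sum_le _ _).trans ?_
  have h1 : ∀ i ∈ Finset.range (p.natDegree + 1), ‖p.coeff i * (n : ℂ) ^ i‖ ≤
      ‖p.coeff i‖ * (n : ℝ) ^ p.natDegree := by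
    intro i hi
    rw [norm_mul, norm_pow, Complex.norm_natCast]
    refine mul_le_mul_of_nonneg_left (pow_le_pow_right₀ hn1 ?_) (norm_nonneg _)
    have := Finset.mem_range.1 hi
    omega
  refine (Finset.sum_le_sum h1).trans ?_
  rw [← Finset.sum_mul, pow_succ', mul_comm]
  have h2 : (0 : ℝ) ≤ (n : ℝ) ^ p.natDegree := by positivity
  rw [mul_comm]
  exact mul_le_mul_of_nonneg_right hS h2

private theorem prec_low (p : ℂ[X]) (hp : p ≠ 0) :
    ∃ δ : ℝ, 0 < δ ∧ ∀ᶠ n : ℕ in atTop, δ ≤ ‖p.eval (n : ℂ)‖ := by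
  by_cases hd : p.natDegree = 0
  · obtain ⟨c, rfl⟩ := natDegree_eq_zero.1 hd
    have hc : c ≠ 0 := by
      rintro rfl
      exact hp (map_zero _)
    refine ⟨‖c‖, norm_pos_iff.2 hc, Eventually.of_forall fun n => ?_⟩
    rw [eval_C]
  · have h1 : Tendsto (fun n : ℕ => ‖(n : ℂ)‖) atTop atTop := by
      simp only [Complex.norm_natCast]
      exact tendsto_natCast_atTop_atTop
    have h2 := Polynomial.tendsto_norm_atTop p
      (natDegree_pos_iff_degree_pos.1 (Nat.pos_of_ne_zero hd)) h1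
    exact ⟨1, one_pos, h2.eventually (eventually_ge_atTop 1)⟩

private theorem prec_ratio (p r : ℂ[X]) (hr : r ≠ 0) :
    ∃ D : ℕ, ∀ᶠ n : ℕ in atTop, r.eval (n : ℂ) ≠ 0 ∧
      ‖p.eval (n : ℂ)‖ ≤ (n : ℝ) ^ D * ‖r.eval (n : ℂ)‖ := by
  obtain ⟨D, hD⟩ := prec_up p
  obtain ⟨δ, hδ, hr'⟩ := prec_low r hr
  refine ⟨D + 1, ?_⟩
  filter_upwards [hD, hr', eventually_ge_atTop (⌈δ⁻¹⌉₊ + 1)] with n h1 h2 h3
  have h4 : δ⁻¹ ≤ n := (Nat.le_ceil _).trans (by exact_mod_cast (by omega : ⌈δ⁻¹⌉₊ ≤ n))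
  have h5 : 0 < ‖r.eval (n : ℂ)‖ := lt_of_lt_of_le hδ h2
  refine ⟨norm_pos_iff.1 h5, h1.trans ?_⟩
  have h6 : 1 ≤ (n : ℝ) * ‖r.eval (n : ℂ)‖ := by
    have h7 : δ⁻¹ * δ ≤ (n : ℝ) * ‖r.eval (n : ℂ)‖ :=
      mul_le_mul h4 h2 hδ.le (by positivity)
    rwa [inv_mul_cancel₀ hδ.ne'] at h7
  rw [pow_succ, mul_assoc]
  exact le_mul_of_one_le_right (by positivity) h6

/-- a common exponent -/
private theorem prec_ratio' (J : ℕ) (q : ℕ → ℂ[X]) (r : ℂ[X]) (hr : r ≠ 0) :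
    ∃ D : ℕ, ∀ᶠ n : ℕ in atTop, r.eval (n : ℂ) ≠ 0 ∧
      ∀ j < J, ‖(q j).eval (n : ℂ)‖ ≤ (n : ℝ) ^ D * ‖r.eval (n : ℂ)‖ := by
  choose D hD using fun j => prec_ratio (q j) r hr
  refine ⟨∑ j ∈ Finset.range J, D j, ?_⟩
  have h1 : ∀ᶠ n : ℕ in atTop, ∀ j ∈ Finset.range J, r.eval (n : ℂ) ≠ 0 ∧
      ‖(q j).eval (n : ℂ)‖ ≤ (n : ℝ) ^ D j * ‖r.eval (n : ℂ)‖ :=
    (Finset.range J).eventually_all.2 fun j _ => hD j
  obtain ⟨D0, hD0⟩ := prec_ratio 0 r hr
  filter_upwards [h1, hD0, eventually_ge_atTop 1] with n h2 h3 h4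
  have hn1 : (1 : ℝ) ≤ n := by exact_mod_cast h4
  refine ⟨h3.1, fun j hj => ?_⟩
  have h5 := (h2 j (Finset.mem_range.2 hj)).2
  refine h5.trans (mul_le_mul_of_nonneg_right (pow_le_pow_right₀ hn1 ?_) (norm_nonneg _))
  exact Finset.single_le_sum (f := D) (fun _ _ => Nat.zero_le _) (Finset.mem_range.2 hj)

/-! ### normalization of the recurrence -/

private theorem prec_norm {u : ℕ → ℂ} (h : PRec u) :
    ∃ (i J : ℕ) (q : ℕ → ℂ[X]), q 0 ≠ 0 ∧ q J ≠ 0 ∧ ∀ᶠ n : ℕ in atTop,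
      ∑ j ∈ Finset.range (J + 1), (q j).eval (n : ℂ) * u (n + i + j) = 0 := by
  classical
  obtain ⟨J, q, hex, hrec⟩ := h
  let S : Finset ℕ := (Finset.range (J + 1)).filter fun j => q j ≠ 0
  have hS : S.Nonempty := by
    obtain ⟨j, hj, hqj⟩ := hex
    exact ⟨j, Finset.mem_filter.2 ⟨Finset.mem_range.2 (by omega), hqj⟩⟩
  have h1 : S.min' hS ∈ S := S.min'_mem hS
  have h2 : S.max' hS ∈ S := S.max'_mem hS
  have h3 : S.min' hS ≤ S.max' hS := S.min'_le _ h2
  refine ⟨S.min' hS, S.max' hS - S.min' hS, fun j => q (S.min' hS + j), ?_, ?_, ?_⟩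
  · exact (Finset.mem_filter.1 h1).2
  · show q (S.min' hS + (S.max' hS - S.min' hS)) ≠ 0
    rw [Nat.add_sub_cancel' h3]
    exact (Finset.mem_filter.1 h2).2
  · filter_upwards [hrec] with n hn
    rw [← hn]
    have h4 : ∑ j ∈ Finset.range (S.max' hS - S.min' hS + 1),
        (q (S.min' hS + j)).eval (n : ℂ) * u (n + S.min' hS + j) =
        ∑ j ∈ Finset.Ico (S.min' hS) (S.max' hS + 1), (q j).eval (n : ℂ) * u (n + j) := by
      rw [Finset.sum_Ico_eq_sum_range]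
      have h5 : S.max' hS + 1 - S.min' hS = S.max' hS - S.min' hS + 1 := by omega
      rw [h5]
      refine Finset.sum_congr rfl fun j _ => ?_
      rw [add_assoc]
    rw [h4]
    refine Finset.sum_subset ?_ ?_
    · intro j hj
      have h5 := Finset.mem_Ico.1 hj
      have h6 := Finset.mem_range.1 (Finset.mem_filter.1 h2).1
      exact Finset.mem_range.2 (by omega)
    · intro j hj hj'
      by_contra h5
      have h6 : q j ≠ 0 := by
        intro h7
        rw [h7] at h5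
        simp at h5
      have h7 : j ∈ S := Finset.mem_filter.2 ⟨hj, h6⟩
      exact hj' (Finset.mem_Ico.2 ⟨S.min'_le _ h7, Nat.lt_succ_of_le (S.le_max' _ h7)⟩)

/-- the windows -/
private noncomputable def prec_M (v : ℕ → ℂ) (J n : ℕ) : ℝ := ∑ j ∈ Finset.range J, ‖v (n + j)‖

private theorem prec_M_nonneg (v : ℕ → ℂ) (J n : ℕ) : 0 ≤ prec_M v J n :=
  Finset.sum_nonneg fun _ _ => norm_nonneg _

private theorem prec_M_le (v : ℕ → ℂ) (J n j : ℕ) (hj : j < J) : ‖v (n + j)‖ ≤ prec_M v J n :=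
  Finset.single_le_sum (f := fun j => ‖v (n + j)‖) (fun _ _ => norm_nonneg _)
    (Finset.mem_range.2 hj)

private theorem prec_M_succ (v : ℕ → ℂ) (J n : ℕ) :
    prec_M v J (n + 1) + ‖v n‖ = prec_M v J n + ‖v (n + J)‖ := by
  unfold prec_M
  have h1 := Finset.sum_range_succ (fun j => ‖v (n + j)‖) J
  have h2 := Finset.sum_range_succ' (fun j => ‖v (n + j)‖) J
  rw [h1] at h2
  have h3 : ∑ j ∈ Finset.range J, ‖v (n + (j + 1))‖ = ∑ j ∈ Finset.range J, ‖v (n + 1 + j)‖ :=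
    Finset.sum_congr rfl fun j _ => by rw [add_assoc, add_comm 1 j]
  rw [h3, add_zero] at h2
  exact h2.symm

/-- one step of the recurrence, forwards and backwards -/
private theorem prec_step (v : ℕ → ℂ) (J : ℕ) (q : ℕ → ℂ[X]) (h0 : q 0 ≠ 0)
    (hJ' : q J ≠ 0) (hrec : ∀ᶠ n : ℕ in atTop,
      ∑ j ∈ Finset.range (J + 1), (q j).eval (n : ℂ) * v (n + j) = 0) :
    ∃ D : ℕ, ∀ᶠ n : ℕ in atTop, prec_M v J (n + 1) ≤ (n : ℝ) ^ D * prec_M v J n ∧
      prec_M v J n ≤ (n : ℝ) ^ D * prec_M v J (n + 1) := by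
  obtain ⟨D1, h1⟩ := prec_ratio' J q (q J) hJ'
  obtain ⟨D2, h2⟩ := prec_ratio' J (fun j => q (j + 1)) (q 0) h0
  refine ⟨D1 + D2 + 1, ?_⟩
  filter_upwards [h1, h2, hrec, eventually_ge_atTop 2] with n hn1 hn2 hn3 hn4
  have hn : (2 : ℝ) ≤ n := by exact_mod_cast hn4
  have hM := prec_M_nonneg v J n
  have hM' := prec_M_nonneg v J (n + 1)
  have key : ∀ D : ℕ, D ≤ D1 + D2 → 1 + (n : ℝ) ^ D ≤ (n : ℝ) ^ (D1 + D2 + 1) := by
    intro D hD
    have h3 : (1 : ℝ) ≤ (n : ℝ) ^ (D1 + D2) := one_le_pow₀ (by linarith)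
    have h4 : (n : ℝ) ^ D ≤ (n : ℝ) ^ (D1 + D2) := pow_le_pow_right₀ (by linarith) hD
    rw [pow_succ]
    nlinarith
  constructor
  · have h3 : ‖v (n + J)‖ ≤ (n : ℝ) ^ D1 * prec_M v J n := by
      rw [Finset.sum_range_succ] at hn3
      have h4 : (q J).eval (n : ℂ) * v (n + J) =
          -∑ j ∈ Finset.range J, (q j).eval (n : ℂ) * v (n + j) := by
        linear_combination hn3
      have h5 : ‖(q J).eval (n : ℂ)‖ * ‖v (n + J)‖ ≤
          ‖(q J).eval (n : ℂ)‖ * ((n : ℝ) ^ D1 * prec_M v J n) := by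
        rw [← norm_mul, h4, norm_neg]
        refine (norm_sum_le _ _).trans ?_
        unfold prec_M
        rw [Finset.mul_sum, Finset.mul_sum]
        refine Finset.sum_le_sum fun j hj => ?_
        rw [norm_mul]
        have h6 := hn1.2 j (Finset.mem_range.1 hj)
        nlinarith [mul_le_mul_of_nonneg_right h6 (norm_nonneg (v (n + j)))]
      exact le_of_mul_le_mul_left h5 (norm_pos_iff.2 hn1.1)
    have h4 := prec_M_succ v J n
    have h5 := key D1 (by omega)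
    have h6 := norm_nonneg (v n)
    have h7 := mul_le_mul_of_nonneg_right h5 hM
    linarith
  · have h3 : ‖v n‖ ≤ (n : ℝ) ^ D2 * prec_M v J (n + 1) := by
      rw [Finset.sum_range_succ'] at hn3
      have h4 : (q 0).eval (n : ℂ) * v n =
          -∑ j ∈ Finset.range J, (q (j + 1)).eval (n : ℂ) * v (n + 1 + j) := by
        have h5 : ∑ j ∈ Finset.range J, (q (j + 1)).eval (n : ℂ) * v (n + (j + 1)) =
            ∑ j ∈ Finset.range J, (q (j + 1)).eval (n : ℂ) * v (n + 1 + j) :=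
          Finset.sum_congr rfl fun j _ => by rw [add_assoc, add_comm 1 j]
        rw [h5, add_zero] at hn3
        linear_combination hn3
      have h5 : ‖(q 0).eval (n : ℂ)‖ * ‖v n‖ ≤
          ‖(q 0).eval (n : ℂ)‖ * ((n : ℝ) ^ D2 * prec_M v J (n + 1)) := by
        rw [← norm_mul, h4, norm_neg]
        refine (norm_sum_le _ _).trans ?_
        unfold prec_M
        rw [Finset.mul_sum, Finset.mul_sum]
        refine Finset.sum_le_sum fun j hj => ?_
        rw [norm_mul]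
        have h6 := hn2.2 j (Finset.mem_range.1 hj)
        nlinarith [mul_le_mul_of_nonneg_right h6 (norm_nonneg (v (n + 1 + j)))]
      exact le_of_mul_le_mul_left h5 (norm_pos_iff.2 hn2.1)
    have h4 := prec_M_succ v J n
    have h5 := key D2 (by omega)
    have h6 := norm_nonneg (v (n + J))
    have h7 := mul_le_mul_of_nonneg_right h5 hM'
    linarith

/-- the growth of the windows -/
private theorem prec_grow (v : ℕ → ℂ) (J : ℕ) (q : ℕ → ℂ[X]) (_hJ : 0 < J) (h0 : q 0 ≠ 0)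
    (hJ' : q J ≠ 0) (hrec : ∀ᶠ n : ℕ in atTop,
      ∑ j ∈ Finset.range (J + 1), (q j).eval (n : ℂ) * v (n + j) = 0) :
    ∃ D N : ℕ, 2 ≤ N ∧ ∀ n, N ≤ n → prec_M v J n ≤ ((n : ℝ) ^ n) ^ D * prec_M v J N ∧
      prec_M v J N ≤ ((n : ℝ) ^ n) ^ D * prec_M v J n := by
  obtain ⟨D, hD⟩ := prec_step v J q h0 hJ' hrec
  obtain ⟨N0, hN0⟩ := eventually_atTop.1 hD
  refine ⟨D, N0 + 2, by omega, fun n hn => ?_⟩
  have hN : (2 : ℝ) ≤ ((N0 + 2 : ℕ) : ℝ) := by exact_mod_cast (by omega : 2 ≤ N0 + 2)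
  induction n, hn using Nat.le_induction with
  | base =>
    have h1 : (1 : ℝ) ≤ (((N0 + 2 : ℕ) : ℝ) ^ (N0 + 2)) ^ D :=
      one_le_pow₀ (one_le_pow₀ (by linarith))
    exact ⟨le_mul_of_one_le_left (prec_M_nonneg _ _ _) h1,
      le_mul_of_one_le_left (prec_M_nonneg _ _ _) h1⟩
  | succ n hn ih =>
    obtain ⟨h1, h2⟩ := hN0 n (by omega)
    have hn2 : (2 : ℝ) ≤ n := by exact_mod_cast (by omega : 2 ≤ n)
    have h3 : (n : ℝ) ^ D * ((n : ℝ) ^ n) ^ D ≤ (((n + 1 : ℕ) : ℝ) ^ (n + 1)) ^ D := by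
      rw [← mul_pow, ← pow_succ']
      refine pow_le_pow_left₀ (by positivity) (pow_le_pow_left₀ (by positivity) ?_ _) _
      push_cast
      linarith
    have hM := prec_M_nonneg v J (N0 + 2)
    have hM1 := prec_M_nonneg v J (n + 1)
    have hp : (0 : ℝ) ≤ (n : ℝ) ^ D := by positivity
    have hp2 : (0 : ℝ) ≤ ((n : ℝ) ^ n) ^ D := by positivity
    constructor
    · calc prec_M v J (n + 1) ≤ (n : ℝ) ^ D * prec_M v J n := h1
        _ ≤ (n : ℝ) ^ D * (((n : ℝ) ^ n) ^ D * prec_M v J (N0 + 2)) :=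
          mul_le_mul_of_nonneg_left ih.1 hp
        _ = (n : ℝ) ^ D * ((n : ℝ) ^ n) ^ D * prec_M v J (N0 + 2) := by ring
        _ ≤ _ := mul_le_mul_of_nonneg_right h3 hM
    · calc prec_M v J (N0 + 2) ≤ ((n : ℝ) ^ n) ^ D * prec_M v J n := ih.2
        _ ≤ ((n : ℝ) ^ n) ^ D * ((n : ℝ) ^ D * prec_M v J (n + 1)) :=
          mul_le_mul_of_nonneg_left h2 hp2
        _ = (n : ℝ) ^ D * ((n : ℝ) ^ n) ^ D * prec_M v J (n + 1) := by ring
        _ ≤ _ := mul_le_mul_of_nonneg_right h3 hM1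

/-- `K n ^ (n D) ≤ exp (ε n²)` for large `n` -/
private theorem prec_small (K : ℝ) (D : ℕ) (ε : ℝ) (hε : 0 < ε) :
    ∀ᶠ n : ℕ in atTop, K * ((n : ℝ) ^ n) ^ D ≤ Real.exp (ε * (n : ℝ) ^ 2) := by
  have h1 : Tendsto (fun n : ℕ => Real.log n / (n : ℝ)) atTop (nhds 0) :=
    (Real.isLittleO_log_id_atTop.comp_tendsto
      (tendsto_natCast_atTop_atTop (R := ℝ))).tendsto_div_nhds_zero
  have h2 : Tendsto (fun n : ℕ => |K| * (n : ℝ)⁻¹ + D * (Real.log n / (n : ℝ))) atTop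
      (nhds (|K| * 0 + D * 0)) :=
    ((tendsto_natCast_atTop_atTop.inv_tendsto_atTop).const_mul _).add (h1.const_mul _)
  rw [mul_zero, mul_zero, add_zero] at h2
  filter_upwards [h2.eventually (gt_mem_nhds hε), eventually_ge_atTop 1] with n hn hn1
  have hn' : (1 : ℝ) ≤ n := by exact_mod_cast hn1
  have hn0 : (0 : ℝ) < n := by linarith
  have h3 : K ≤ Real.exp (|K| * n) := by
    have h4 := Real.add_one_le_exp (|K| * n)
    have h5 := le_abs_self K
    have h6 : |K| ≤ |K| * n := le_mul_of_one_le_right (abs_nonneg _) hn'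
    linarith
  have h4 : ((n : ℝ) ^ n) ^ D = Real.exp (D * (n * Real.log n)) := by
    rw [Real.exp_nat_mul _ D, Real.exp_nat_mul _ n, Real.exp_log hn0]
  rw [h4]
  calc K * Real.exp (D * (n * Real.log n)) ≤ Real.exp (|K| * n) * Real.exp (D * (n * Real.log n)) :=
      mul_le_mul_of_nonneg_right h3 (Real.exp_pos _).le
    _ = Real.exp (|K| * n + D * (n * Real.log n)) := (Real.exp_add _ _).symm
    _ ≤ Real.exp (ε * (n : ℝ) ^ 2) := by
      rw [Real.exp_le_exp]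
      have h5 : |K| * n + D * (n * Real.log n) =
          (|K| * (n : ℝ)⁻¹ + D * (Real.log n / (n : ℝ))) * (n : ℝ) ^ 2 := by
        field_simp
      rw [h5]
      exact mul_le_mul_of_nonneg_right hn.le (by positivity)

theorem PRec.upper {u : ℕ → ℂ} (h : PRec u) (ε : ℝ) (hε : 0 < ε) :
    ∀ᶠ n : ℕ in atTop, ‖u n‖ ≤ Real.exp (ε * (n : ℝ) ^ 2) := by
  obtain ⟨i, J, q, h0, hJ, hrec⟩ := prec_norm h
  rcases Nat.eq_zero_or_pos J with rfl | hJpos
  · obtain ⟨δ, hδ, hlow⟩ := prec_low (q 0) h0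
    have h1 : ∀ᶠ n : ℕ in atTop, u (n + i) = 0 := by
      filter_upwards [hrec, hlow] with n h1 h2
      rw [Finset.sum_range_one, add_zero] at h1
      exact (mul_eq_zero.1 h1).resolve_left (norm_pos_iff.1 (lt_of_lt_of_le hδ h2))
    obtain ⟨N, hN⟩ := eventually_atTop.1 h1
    filter_upwards [eventually_ge_atTop (N + i)] with n hn
    have h2 := hN (n - i) (by omega)
    rw [Nat.sub_add_cancel (by omega)] at h2
    rw [h2, norm_zero]
    exact (Real.exp_pos _).le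
  · let v : ℕ → ℂ := fun n => u (n + i)
    have hrec' : ∀ᶠ n : ℕ in atTop,
        ∑ j ∈ Finset.range (J + 1), (q j).eval (n : ℂ) * v (n + j) = 0 := by
      filter_upwards [hrec] with n hn
      rw [← hn]
      refine Finset.sum_congr rfl fun j _ => ?_
      show _ * u (n + j + i) = _
      rw [add_right_comm]
    obtain ⟨D, N, hN2, hN⟩ := prec_grow v J q hJpos h0 hJ hrec'
    filter_upwards [prec_small (prec_M v J N) D ε hε, eventually_ge_atTop (N + i)] with n hn hn'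
    refine le_trans ?_ hn
    have h1 := (hN (n - i) (by omega)).1
    have h2 := prec_M_le v J (n - i) 0 hJpos
    have h3 : v (n - i + 0) = u n := by
      show u (n - i + 0 + i) = u n
      rw [add_zero, Nat.sub_add_cancel (by omega)]
    rw [h3] at h2
    refine (h2.trans h1).trans ?_
    rw [mul_comm]
    refine mul_le_mul_of_nonneg_left (pow_le_pow_left₀ (by positivity) ?_ _) (prec_M_nonneg _ _ _)
    have h4 : ((n - i : ℕ) : ℝ) ≤ n := by exact_mod_cast Nat.sub_le n i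
    have h5 : (1 : ℝ) ≤ n := by exact_mod_cast (by omega : 1 ≤ n)
    exact (pow_le_pow_left₀ (by positivity) h4 _).trans (pow_le_pow_right₀ h5 (Nat.sub_le n i))

theorem PRec.lower {u : ℕ → ℂ} (h : PRec u) (hu : ∃ᶠ n : ℕ in atTop, u n ≠ 0) (ε : ℝ)
    (hε : 0 < ε) : ∃ᶠ n : ℕ in atTop, Real.exp (-(ε * (n : ℝ) ^ 2)) ≤ ‖u n‖ := by
  obtain ⟨i, J, q, h0, hJ, hrec⟩ := prec_norm h
  rcases Nat.eq_zero_or_pos J with rfl | hJpos
  · exfalso
    obtain ⟨δ, hδ, hlow⟩ := prec_low (q 0) h0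
    have h1 : ∀ᶠ n : ℕ in atTop, u (n + i) = 0 := by
      filter_upwards [hrec, hlow] with n h1 h2
      rw [Finset.sum_range_one, add_zero] at h1
      exact (mul_eq_zero.1 h1).resolve_left (norm_pos_iff.1 (lt_of_lt_of_le hδ h2))
    obtain ⟨N, hN⟩ := eventually_atTop.1 h1
    obtain ⟨n, hn, hn'⟩ := frequently_atTop.1 hu (N + i)
    have h2 := hN (n - i) (by omega)
    rw [Nat.sub_add_cancel (by omega)] at h2
    exact hn' h2
  · let v : ℕ → ℂ := fun n => u (n + i)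
    have hrec' : ∀ᶠ n : ℕ in atTop,
        ∑ j ∈ Finset.range (J + 1), (q j).eval (n : ℂ) * v (n + j) = 0 := by
      filter_upwards [hrec] with n hn
      rw [← hn]
      refine Finset.sum_congr rfl fun j _ => ?_
      show _ * u (n + j + i) = _
      rw [add_right_comm]
    obtain ⟨D, N, hN2, hN⟩ := prec_grow v J q hJpos h0 hJ hrec'
    have hMN : 0 < prec_M v J N := by
      refine lt_of_le_of_ne (prec_M_nonneg _ _ _) fun h1 => ?_
      obtain ⟨n, hn, hn'⟩ := frequently_atTop.1 hu (N + i)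
      have h2 := (hN (n - i) (by omega)).1
      rw [← h1, mul_zero] at h2
      have h3 := prec_M_le v J (n - i) 0 hJpos
      have h4 : v (n - i + 0) = u n := by
        show u (n - i + 0 + i) = u n
        rw [add_zero, Nat.sub_add_cancel (by omega)]
      rw [h4] at h3
      exact hn' (norm_le_zero_iff.1 (h3.trans h2))
    obtain ⟨N1, hN1⟩ := eventually_atTop.1 (prec_small ((J : ℝ) / prec_M v J N) D ε hε)
    rw [frequently_atTop]
    intro N2
    -- the window at `n`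
    let n := N + N1 + N2
    have h1 := (hN n (by omega)).2
    obtain ⟨j, hj, hjM⟩ : ∃ j < J, prec_M v J n ≤ J * ‖v (n + j)‖ := by
      by_contra hcon
      push Not at hcon
      have h2 : ∑ j ∈ Finset.range J, (J : ℝ) * ‖v (n + j)‖ <
          ∑ j ∈ Finset.range J, prec_M v J n := by
        refine Finset.sum_lt_sum_of_nonempty ⟨0, Finset.mem_range.2 hJpos⟩ fun j hj => ?_
        exact hcon j (Finset.mem_range.1 hj)
      rw [← Finset.mul_sum, Finset.sum_const, Finset.card_range, nsmul_eq_mul] at h2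
      exact lt_irrefl _ h2
    refine ⟨n + j + i, by omega, ?_⟩
    show Real.exp (-(ε * ((n + j + i : ℕ) : ℝ) ^ 2)) ≤ ‖v (n + j)‖
    have h2 := hN1 (n + j + i) (by omega)
    have hJ0 : (0 : ℝ) < J := by exact_mod_cast hJpos
    have h3 : ((n : ℝ) ^ n) ^ D ≤ (((n + j + i : ℕ) : ℝ) ^ (n + j + i)) ^ D := by
      refine pow_le_pow_left₀ (by positivity) ?_ _
      have h4 : (n : ℝ) ≤ ((n + j + i : ℕ) : ℝ) := by exact_mod_cast (by omega : n ≤ n + j + i)
      have h5 : (1 : ℝ) ≤ ((n + j + i : ℕ) : ℝ) := by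
        exact_mod_cast (by omega : 1 ≤ n + j + i)
      exact (pow_le_pow_left₀ (by positivity) h4 _).trans (pow_le_pow_right₀ h5 (by omega))
    rw [Real.exp_neg, inv_le_comm₀ (Real.exp_pos _)]
    · refine le_trans ?_ h2
      have h4 : prec_M v J N ≤ (((n + j + i : ℕ) : ℝ) ^ (n + j + i)) ^ D * (J * ‖v (n + j)‖) :=
        h1.trans (mul_le_mul h3 hjM (prec_M_nonneg _ _ _) (by positivity))
      have h5 : 0 < ‖v (n + j)‖ := by
        rcases (norm_nonneg (v (n + j))).eq_or_lt with h6 | h6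
        · rw [← h6, mul_zero, mul_zero] at h4
          exact absurd h4 (not_le.2 hMN)
        · exact h6
      rw [div_mul_eq_mul_div, le_div_iff₀ hMN, inv_mul_le_iff₀ h5]
      calc prec_M v J N ≤ _ := h4
        _ = _ := by ring
    · have h4 : prec_M v J N ≤ (((n + j + i : ℕ) : ℝ) ^ (n + j + i)) ^ D * (J * ‖v (n + j)‖) :=
        h1.trans (mul_le_mul h3 hjM (prec_M_nonneg _ _ _) (by positivity))
      rcases (norm_nonneg (v (n + j))).eq_or_lt with h6 | h6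
      · rw [← h6, mul_zero, mul_zero] at h4
        exact absurd h4 (not_le.2 hMN)
      · exact h6

end Pool.Agent.MSF
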