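import Pool.Agent.F1.Stmts

/-!
# MSF, module Rat: `F_1(n, 3)` is a rational multiple of `(√π) ^ (3 n)`
-/

set_option autoImplicit false

open MeasureTheory Set Real
open Pool.Agent.Helper44.Ball3 (E3)

namespace Pool.Agent.MSF

/-- the one-dimensional weight -/
private noncomputable def w1 (k : ℕ) (x : ℝ) : ℝ := x ^ k * exp (-x ^ 2)

private theorem w1_int (k : ℕ) : Integrable (w1 k) := by
  have h := integrable_rpow_mul_exp_neg_mul_sq (b := 1) one_pos (s := (k : ℝ))
    (by have := Nat.cast_nonneg (α := ℝ) k; linarith)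
  refine h.congr (Filter.Eventually.of_forall fun x => ?_)
  show x ^ (k : ℝ) * exp (-1 * x ^ 2) = x ^ k * exp (-x ^ 2)
  rw [rpow_natCast, neg_one_mul]

private theorem w1_val (k : ℕ) : ∃ q : ℚ, ∫ x, w1 k x = q * √π := by
  rcases Nat.even_or_odd k with hk | hk
  · obtain ⟨m, rfl⟩ := hk
    have h1 : (∫ x, w1 (m + m) x) = ∫ x, w1 (m + m) |x| := by
      congr 1
      funext x
      unfold w1
      rw [(Even.add_self m).pow_abs, sq_abs]
    have h2 : (∫ x in Ioi (0 : ℝ), w1 (m + m) x) = 1 / 2 * Gamma (m + 1 / 2) := by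
      have h3 := integral_rpow_mul_exp_neg_rpow (p := 2) (q := ((m + m : ℕ) : ℝ)) two_pos
        (by have := Nat.cast_nonneg (α := ℝ) (m + m); linarith)
      have h4 : (((m + m : ℕ) : ℝ) + 1) / 2 = m + 1 / 2 := by
        push_cast
        ring
      rw [h4] at h3
      rw [← h3]
      refine setIntegral_congr_fun measurableSet_Ioi fun x hx => ?_
      show x ^ (m + m) * exp (-x ^ 2) = x ^ ((m + m : ℕ) : ℝ) * exp (-x ^ (2 : ℝ))
      rw [rpow_natCast, rpow_two]
    refine ⟨((2 * m - 1).doubleFactorial : ℚ) / 2 ^ m, ?_⟩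
    rw [h1, integral_comp_abs, h2, Gamma_nat_add_half]
    push_cast
    ring
  · refine ⟨0, ?_⟩
    have h1 : (∫ x, w1 k (-x)) = ∫ x, w1 k x := integral_neg_eq_self _ _
    have h2 : (∫ x, w1 k (-x)) = -∫ x, w1 k x := by
      rw [← integral_neg]
      congr 1
      funext x
      unfold w1
      rw [hk.neg_pow, neg_sq]
      ring
    have h3 : (∫ x, w1 k x) = 0 := by linarith
    rw [h3]
    simp

/-- the weight on the space -/
private noncomputable def w3 (k : Fin 3 → ℕ) (x : E3) : ℝ := ∏ j, w1 (k j) (x j)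

private theorem w3_eq (k : Fin 3 → ℕ) (x : E3) :
    w3 k x = (∏ j, x j ^ k j) * exp (-‖x‖ ^ 2) := by
  unfold w3 w1
  rw [Finset.prod_mul_distrib, EuclideanSpace.real_norm_sq_eq, ← exp_sum, Finset.sum_neg_distrib]

private theorem w3_int (k : Fin 3 → ℕ) : Integrable (w3 k) := by
  have h1 : Integrable (fun x : Fin 3 → ℝ => ∏ j, w1 (k j) (x j)) :=
    Integrable.fintype_prod fun j => w1_int (k j)
  exact (EuclideanSpace.volume_preserving_symm_measurableEquiv_toLp (Fin 3)).integrable_comp_of_integrable h1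

private theorem w3_val (k : Fin 3 → ℕ) : ∃ q : ℚ, ∫ x, w3 k x = q * √π ^ 3 := by
  choose q hq using w1_val
  refine ⟨∏ j, q (k j), ?_⟩
  have h1 : (∫ x, w3 k x) = ∫ x : Fin 3 → ℝ, ∏ j, w1 (k j) (x j) :=
    (EuclideanSpace.volume_preserving_symm_measurableEquiv_toLp (Fin 3)).integral_comp'
      (fun x : Fin 3 → ℝ => ∏ j, w1 (k j) (x j))
  rw [h1, integral_fintype_prod_volume_eq_prod (fun j => w1 (k j))]
  simp only [hq, Finset.prod_mul_distrib, Finset.prod_const, Finset.card_univ, Fintype.card_fin]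
  push_cast
  ring

variable (n : ℕ)

/-- the integrand of a polynomial -/
private noncomputable def pw (p : MvPolynomial (Fin n × Fin 3) ℚ) (r : Fin n → E3) : ℝ :=
  MvPolynomial.aeval (fun a : Fin n × Fin 3 => r a.1 a.2) p * ∏ i, exp (-‖r i‖ ^ 2)

private theorem pw_monomial (s : (Fin n × Fin 3) →₀ ℕ) (a : ℚ) (r : Fin n → E3) :
    pw n (MvPolynomial.monomial s a) r = a * ∏ i, w3 (fun j => s (i, j)) (r i) := by
  unfold pw
  rw [MvPolynomial.aeval_monomial]
  simp only [w3_eq, Finset.prod_mul_distrib]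
  have h1 : (s.prod fun i k => (r i.1 i.2) ^ k) = ∏ i, ∏ j, r i j ^ s (i, j) := by
    rw [Finsupp.prod_fintype _ _ (fun _ => pow_zero _), Fintype.prod_prod_type]
  rw [h1]
  simp only [eq_ratCast]
  ring

private theorem pw_main (p : MvPolynomial (Fin n × Fin 3) ℚ) :
    Integrable (pw n p) ∧ ∃ q : ℚ, ∫ r, pw n p r = q * √π ^ (3 * n) := by
  induction p using MvPolynomial.induction_on' with
  | monomial s a =>
    choose q hq using w3_val
    have h1 : pw n (MvPolynomial.monomial s a) =
        fun r => (a : ℝ) * ∏ i, w3 (fun j => s (i, j)) (r i) := by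
      funext r
      exact pw_monomial n s a r
    have h2 : Integrable (fun r : Fin n → E3 => ∏ i, w3 (fun j => s (i, j)) (r i)) :=
      Integrable.fintype_prod fun i => w3_int fun j => s (i, j)
    rw [h1]
    refine ⟨h2.const_mul _, a * ∏ i, q (fun j => s (i, j)), ?_⟩
    rw [integral_const_mul, integral_fintype_prod_volume_eq_prod (fun i => w3 (fun j => s (i, j)))]
    simp only [hq, Finset.prod_mul_distrib, Finset.prod_const, Finset.card_univ, Fintype.card_fin]
    push_cast
    rw [pow_mul]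
    ring
  | add p p' hp hp' =>
    obtain ⟨h1, q, hq⟩ := hp
    obtain ⟨h1', q', hq'⟩ := hp'
    have h2 : pw n (p + p') = fun r => pw n p r + pw n p' r := by
      funext r
      unfold pw
      rw [map_add, add_mul]
    rw [h2]
    refine ⟨h1.add h1', q + q', ?_⟩
    rw [integral_add h1 h1', hq, hq']
    push_cast
    ring

/-- the product of the squared distances as a polynomial -/
private noncomputable def pQ : MvPolynomial (Fin n × Fin 3) ℚ :=
  ∏ k : Fin n, ∏ j ∈ Finset.Ioi k, ∑ i : Fin 3,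
    (MvPolynomial.X (j, i) - MvPolynomial.X (k, i)) ^ 2

private theorem pQ_eval (r : Fin n → E3) :
    MvPolynomial.aeval (fun a : Fin n × Fin 3 => r a.1 a.2) (pQ n) = F1.QQ r := by
  unfold pQ F1.QQ
  simp only [map_prod, map_sum, map_pow, map_sub, MvPolynomial.aeval_X,
    EuclideanSpace.real_norm_sq_eq, PiLp.sub_apply]

/-- `F_1(n, 3)` is a rational multiple of `(√π) ^ (3 n)`. -/
theorem rat : ∃ q : ℚ, F1.Fone n = q * √π ^ (3 * n) := by
  obtain ⟨-, q, hq⟩ := pw_main n (pQ n)
  refine ⟨q, ?_⟩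
  rw [← hq]
  unfold F1.Fone pw
  simp only [pQ_eval]

end Pool.Agent.MSF
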