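import Mathlib

/-!
# MSF, module TrE: `e` is transcendental (Hermite)
-/

set_option autoImplicit false

open Polynomial

namespace Pool.Agent.MSF

private theorem tre_lim (c B : ℝ) :
    Filter.Tendsto (fun p : ℕ => B * (|c| ^ p / ((p - 1).factorial : ℝ)))
      Filter.atTop (nhds 0) := by
  have h1 := FloorSemiring.tendsto_pow_div_factorial_atTop (K := ℝ) |c|
  have h2 : Filter.Tendsto (fun p : ℕ => B * (|c| * (|c| ^ (p - 1) /
      ((p - 1).factorial : ℝ)))) Filter.atTop (nhds (B * (|c| * 0))) :=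
    ((h1.comp (Filter.tendsto_sub_atTop_nat 1)).const_mul _).const_mul _
  rw [mul_zero, mul_zero] at h2
  refine h2.congr' ?_
  filter_upwards [Filter.eventually_ge_atTop 1] with p hp
  obtain ⟨k, rfl⟩ : ∃ k, p = k + 1 := ⟨p - 1, by omega⟩
  rw [Nat.add_sub_cancel, pow_succ]
  ring

/-- no integer polynomial with a constant term which is not `0` vanishes at `e` -/
private theorem tre_aux (Q : ℤ[X]) (h0 : Q.coeff 0 ≠ 0) (hQ : aeval (Complex.exp 1) Q = 0) :
    False := by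
  classical
  let d := Q.natDegree
  let f : ℤ[X] := ∏ j ∈ Finset.Icc 1 d, (X - C (j : ℤ))
  have hf0 : f ≠ 0 := Finset.prod_ne_zero_iff.2 fun j _ => X_sub_C_ne_zero _
  have hf : f.eval 0 ≠ 0 := by
    rw [eval_prod]
    refine Finset.prod_ne_zero_iff.2 fun j hj => ?_
    have h1 := (Finset.mem_Icc.1 hj).1
    simp only [eval_sub, eval_X, eval_C, zero_sub, ne_eq, neg_eq_zero]
    omega
  have hroot : ∀ j ∈ Finset.Icc 1 d, ((j : ℕ) : ℂ) ∈ f.aroots ℂ := by
    intro j hj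
    rw [mem_aroots]
    refine ⟨hf0, ?_⟩
    rw [map_prod]
    refine Finset.prod_eq_zero hj ?_
    simp
  obtain ⟨c, hc⟩ := LindemannWeierstrass.exp_polynomial_approx f hf
  let B : ℝ := ∑ j ∈ Finset.Icc 1 d, |(Q.coeff j : ℝ)|
  obtain ⟨N, hN⟩ := Filter.eventually_atTop.1 ((tre_lim c B).eventually (gt_mem_nhds one_pos))
  obtain ⟨p, hp1, hp⟩ := Nat.exists_infinite_primes
    (N + (eval 0 f).natAbs + (Q.coeff 0).natAbs + 1)
  obtain ⟨n, hn, gp, -, happ⟩ := hc p (by omega) hp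
  have hsum : ∑ j ∈ Finset.range (d + 1), (Q.coeff j : ℂ) * Complex.exp (j : ℂ) = 0 := by
    rw [aeval_eq_sum_range] at hQ
    rw [← hQ]
    refine Finset.sum_congr rfl fun j _ => ?_
    rw [zsmul_eq_mul, ← Complex.exp_nat_mul, mul_one]
  have hsum' : ∑ j ∈ Finset.Icc 1 d, (Q.coeff j : ℂ) * Complex.exp (j : ℂ) =
      -(Q.coeff 0 : ℂ) := by
    rw [Finset.sum_range_succ'] at hsum
    have h1 : ∑ j ∈ Finset.Icc 1 d, (Q.coeff j : ℂ) * Complex.exp (j : ℂ) =
        ∑ k ∈ Finset.range d, (Q.coeff (k + 1) : ℂ) * Complex.exp ((k + 1 : ℕ) : ℂ) := by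
      rw [Finset.range_eq_Ico, Finset.sum_Ico_add' (fun j : ℕ => (Q.coeff j : ℂ) *
        Complex.exp (j : ℂ)) 0 d 1, zero_add]
      rfl
    rw [h1]
    have h2 : Complex.exp ((0 : ℕ) : ℂ) = 1 := by
      rw [Nat.cast_zero, Complex.exp_zero]
    rw [h2, mul_one] at hsum
    linear_combination hsum
  let K : ℤ := n * Q.coeff 0 + p * ∑ j ∈ Finset.Icc 1 d, Q.coeff j * gp.eval (j : ℤ)
  have hK : (K : ℂ) = -∑ j ∈ Finset.Icc 1 d, (Q.coeff j : ℂ) *
      (n • Complex.exp (j : ℂ) - p • (aeval (j : ℂ) gp : ℂ)) := by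
    have h2 : ∀ j : ℕ, (aeval (j : ℂ) gp : ℂ) = ((gp.eval (j : ℤ) : ℤ) : ℂ) := by
      intro j
      have h3 := Polynomial.aeval_algebraMap_apply ℂ (j : ℤ) gp
      simpa using h3
    have h3 : ∑ j ∈ Finset.Icc 1 d, (Q.coeff j : ℂ) *
        (n • Complex.exp (j : ℂ) - p • (aeval (j : ℂ) gp : ℂ)) =
        (n : ℂ) * ∑ j ∈ Finset.Icc 1 d, (Q.coeff j : ℂ) * Complex.exp (j : ℂ) -
          (p : ℂ) * ∑ j ∈ Finset.Icc 1 d, (Q.coeff j : ℂ) * ((gp.eval (j : ℤ) : ℤ) : ℂ) := by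
      rw [Finset.mul_sum, Finset.mul_sum, ← Finset.sum_sub_distrib]
      refine Finset.sum_congr rfl fun j _ => ?_
      rw [h2, zsmul_eq_mul, nsmul_eq_mul]
      ring
    rw [h3, hsum']
    simp only [K]
    push_cast
    ring
  have hKn : ‖(K : ℂ)‖ < 1 := by
    rw [hK, norm_neg]
    refine lt_of_le_of_lt (norm_sum_le _ _) (lt_of_le_of_lt ?_ (hN p (by omega)))
    simp only [B]
    rw [Finset.sum_mul]
    refine Finset.sum_le_sum fun j hj => ?_
    rw [norm_mul, Complex.norm_intCast]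
    refine mul_le_mul_of_nonneg_left ((happ (hroot j hj)).trans ?_) (abs_nonneg _)
    have h6 : c ^ p ≤ |c| ^ p := by
      rw [← abs_pow]
      exact le_abs_self _
    exact div_le_div_of_nonneg_right h6 (by positivity)
  rw [Complex.norm_intCast] at hKn
  have hK0 : K = 0 := by
    rw [← Int.abs_lt_one_iff]
    exact_mod_cast hKn
  have h7 : (p : ℤ) ∣ n * Q.coeff 0 := by
    refine ⟨-∑ j ∈ Finset.Icc 1 d, Q.coeff j * gp.eval (j : ℤ), ?_⟩
    simp only [K] at hK0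
    linear_combination hK0
  rcases (Nat.prime_iff_prime_int.1 hp).dvd_or_dvd h7 with h8 | h8
  · exact hn h8
  · have h9 := Int.natAbs_dvd_natAbs.2 h8
    rw [Int.natAbs_natCast] at h9
    have h10 := Nat.le_of_dvd (Int.natAbs_pos.2 h0) h9
    omega

/-- `e` is transcendental, over the integers -/
theorem tre_int : Transcendental ℤ (Complex.exp 1) := by
  rintro ⟨P, hP0, hP⟩
  obtain ⟨Q, hQ, hdvd⟩ := exists_eq_pow_rootMultiplicity_mul_and_not_dvd P hP0 0
  have h0 : Q.coeff 0 ≠ 0 := by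
    intro h
    apply hdvd
    rw [C_0, sub_zero, X_dvd_iff]
    exact h
  refine tre_aux Q h0 ?_
  rw [hQ, map_mul, map_pow, C_0, sub_zero, aeval_X] at hP
  rcases mul_eq_zero.1 hP with h | h
  · exact absurd h (pow_ne_zero _ (Complex.exp_ne_zero 1))
  · exact h

/-- `e` is transcendental, as a complex number -/
theorem tre_complex : Transcendental ℚ (Complex.exp 1) := by
  exact fun h => tre_int ((IsFractionRing.isAlgebraic_iff ℤ ℚ ℂ).2 h)

/-- `e` is transcendental, as a real number -/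
theorem trE : Transcendental ℚ (Real.exp 1) := by
  intro h
  apply tre_complex
  have h1 : IsAlgebraic ℚ (algebraMap ℝ ℂ (Real.exp 1)) := h.algebraMap
  have h2 : algebraMap ℝ ℂ (Real.exp 1) = Complex.exp 1 := by
    show ((Real.exp 1 : ℝ) : ℂ) = Complex.exp 1
    rw [Complex.ofReal_exp, Complex.ofReal_one]
  rwa [h2] at h1

/-- no number `q e ^ N`, with `q ≠ 0` rational and `N ≠ 0`, is algebraic -/
theorem trE_zpow (q : ℚ) (hq : q ≠ 0) (N : ℤ) (hN : N ≠ 0) :
    Transcendental ℚ ((q : ℝ) * Real.exp N) := by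
  intro h
  apply trE
  have h1 : IsAlgebraic ℚ (Real.exp N) := by
    have h2 : IsAlgebraic ℚ ((q : ℝ)⁻¹ * ((q : ℝ) * Real.exp N)) :=
      ((isAlgebraic_algebraMap (A := ℝ) q).inv).mul h
    rwa [inv_mul_cancel_left₀ (by exact_mod_cast hq)] at h2
  have h3 : IsAlgebraic ℚ (Real.exp 1 ^ N.natAbs) := by
    obtain ⟨k, rfl | rfl⟩ := Int.eq_nat_or_neg N
    · have h5 : Real.exp 1 ^ (k : ℤ).natAbs = Real.exp ((k : ℤ) : ℝ) := by
        rw [Int.natAbs_natCast, ← Real.exp_nat_mul, mul_one, Int.cast_natCast]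
      rwa [h5]
    · have h5 : Real.exp 1 ^ (-(k : ℤ)).natAbs = (Real.exp ((-(k : ℤ) : ℤ) : ℝ))⁻¹ := by
        rw [Int.natAbs_neg, Int.natAbs_natCast, ← Real.exp_nat_mul, mul_one, Int.cast_neg,
          Int.cast_natCast, Real.exp_neg, inv_inv]
      rw [h5]
      exact h1.inv
  exact h3.of_pow (Int.natAbs_pos.2 hN)

end Pool.Agent.MSF
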