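import Pool.Agent.MSF.Brn
import Pool.Agent.MSF.PRec
import Pool.Agent.MSF.Aut
import Pool.Agent.MSF.TrE
import Pool.Agent.MSF.Rat
import Pool.Agent.F1.All

/-!
# MSF, the theorem
-/

set_option autoImplicit false

open Polynomial Filter Asymptotics Topology

namespace Pool.Agent.MSF

/-- the asymptotics of `log F_1(n, 3)` -/
private theorem av_F : Av (fun n => Real.log (F1.Fone n)) (1 / 2) (1 / 4 - Real.log 6 / 2) := by
  obtain ⟨C, hC⟩ := F1.full
  have h1 : (fun n : ℕ => Real.log (F1.Fone n) - ((n : ℝ) ^ 2 * Real.log n / 2 -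
      (Real.log 6 / 2 - 1 / 4) * n ^ 2 + 4 / 3 * n * Real.log n)) =O[atTop]
      fun n : ℕ => (n : ℝ) := by
    refine IsBigO.of_bound C ?_
    filter_upwards [eventually_ge_atTop 1] with n hn
    rw [Real.norm_eq_abs, Real.norm_of_nonneg (Nat.cast_nonneg n)]
    exact (hC n hn).2
  have h2 := (h1.trans id_lm).add ((isBigO_refl lm atTop).const_mul_left (4 / 3))
  refine h2.congr_left fun n => ?_
  unfold f2 lm
  ring

private theorem prod_zpow_sum (x : ℝ) (hx : x ≠ 0) (t : Finset ℕ) (e : ℕ → ℤ) :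
    ∏ i ∈ t, x ^ e i = x ^ ∑ i ∈ t, e i := by
  classical
  induction t using Finset.induction_on with
  | empty => simp
  | insert i t hi ih => rw [Finset.prod_insert hi, Finset.sum_insert hi, ih, zpow_add₀ hx]

private theorem alg_norm (c : ℂ) (hc : IsAlgebraic ℚ c) : IsAlgebraic ℚ ‖c‖ := by
  have h1 : IsAlgebraic ℚ ((starRingEnd ℂ) c) :=
    hc.algHom (starRingEnd ℂ).toRatAlgHom
  have h2 : IsAlgebraic ℚ (((‖c‖ : ℝ) : ℂ) ^ 2) := by
    rw [← Complex.mul_conj']
    exact hc.mul h1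
  have h3 : IsAlgebraic ℚ ((‖c‖ : ℝ) : ℂ) := IsAlgebraic.of_pow two_pos h2
  exact (isAlgebraic_algebraMap_iff (R := ℚ) (S := ℝ) (A := ℂ)
    (algebraMap ℝ ℂ).injective).1 h3

/-- `F_1(n, 3)` and products of its values are not of Barnes type times a quotient of P-recursive
sequences -/
theorem main (a b r : ℕ) (c : ℕ → ℤ) (ha : 1 ≤ a) (hc : ∑ i ∈ Finset.range (r + 1), c i ≠ 0)
    (e u v : ℕ → ℂ) (he : Barnes e) (hu : PRec u) (hv : PRec v) (hv0 : ∃ᶠ n in atTop, v n ≠ 0)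
    (hid : ∀ᶠ n : ℕ in atTop, ((∏ i ∈ Finset.range (r + 1),
      F1.Fone (a * (n + i) + b) ^ c i : ℝ) : ℂ) * v n = e n * u n) : False := by
  choose q hq using fun n => rat (n := n)
  obtain ⟨K, hK⟩ := F1.full
  have hπ : 0 < √Real.pi := Real.sqrt_pos.2 Real.pi_pos
  have ha' : (1 : ℝ) ≤ a := by exact_mod_cast ha
  -- the rational numbers
  have hqpos : ∀ n, 1 ≤ n → (0 : ℝ) < q n := by
    intro n hn
    have h1 := (hK n hn).1
    rw [hq n] at h1
    exact pos_of_mul_pos_left h1 (by positivity)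
  let D : ℤ := ∑ i ∈ Finset.range (r + 1), c i
  let w0 : ℤ := ∑ i ∈ Finset.range (r + 1), (3 * (a * i + b) : ℤ) * c i
  let G : ℕ → ℚ := fun n => ∏ i ∈ Finset.range (r + 1), q (a * (n + i) + b) ^ c i
  let l : ℝ := √Real.pi ^ (3 * a * D : ℤ)
  let C0 : ℝ := √Real.pi ^ w0
  have hl : 0 < l := zpow_pos hπ _
  have hC0 : 0 < C0 := zpow_pos hπ _
  have hprod : ∀ n : ℕ, (∏ i ∈ Finset.range (r + 1), F1.Fone (a * (n + i) + b) ^ c i : ℝ) =
      (G n : ℝ) * (C0 * l ^ n) := by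
    intro n
    have h1 : ∀ i ∈ Finset.range (r + 1), F1.Fone (a * (n + i) + b) ^ c i =
        (q (a * (n + i) + b) : ℝ) ^ c i *
          √Real.pi ^ ((3 * (a * (n + i) + b) : ℤ) * c i) := by
      intro i _
      rw [hq, mul_zpow, ← zpow_natCast (√Real.pi), ← zpow_mul]
      push_cast
      rfl
    rw [Finset.prod_congr rfl h1, Finset.prod_mul_distrib, prod_zpow_sum _ hπ.ne']
    have h2 : ∑ i ∈ Finset.range (r + 1), (3 * (a * (n + i) + b) : ℤ) * c i =
        w0 + (3 * a * D) * n := by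
      show _ = (∑ i ∈ Finset.range (r + 1), (3 * (a * i + b) : ℤ) * c i) +
        (3 * a * ∑ i ∈ Finset.range (r + 1), c i) * n
      rw [Finset.mul_sum, Finset.sum_mul, ← Finset.sum_add_distrib]
      refine Finset.sum_congr rfl fun i _ => ?_
      ring
    rw [h2, zpow_add₀ hπ.ne', zpow_mul, zpow_natCast]
    have h3 : (G n : ℝ) = ∏ i ∈ Finset.range (r + 1), (q (a * (n + i) + b) : ℝ) ^ c i := by
      show ((∏ i ∈ Finset.range (r + 1), q (a * (n + i) + b) ^ c i : ℚ) : ℝ) = _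
      push_cast
      rfl
    rw [h3]
  have hGpos : ∀ n : ℕ, 1 ≤ n → (0 : ℝ) < G n := by
    intro n hn
    show (0 : ℝ) < ((∏ i ∈ Finset.range (r + 1), q (a * (n + i) + b) ^ c i : ℚ) : ℝ)
    push_cast
    refine Finset.prod_pos fun i _ => zpow_pos (hqpos _ ?_) _
    have h1 : 1 * 1 ≤ a * (n + i) := Nat.mul_le_mul ha (by omega)
    omega
  -- the asymptotics of `log G`
  let α : ℝ := D * (1 / 2 * (a : ℝ) ^ 2)
  let β : ℝ := D * (1 / 2 * ((a : ℝ) ^ 2 * Real.log a) + (1 / 4 - Real.log 6 / 2) * (a : ℝ) ^ 2)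
  let Y : ℕ → ℝ := fun n => Real.log (G n)
  have hY : Av Y α β := by
    have h1 := av_F.lin a b ha
    have h2 := h1.aeval (∑ i ∈ Finset.range (r + 1), C (c i : ℝ) * X ^ i)
    have h3 : (∑ i ∈ Finset.range (r + 1), C (c i : ℝ) * X ^ i : ℝ[X]).eval 1 = (D : ℝ) := by
      rw [eval_finsetSum]
      show _ = ((∑ i ∈ Finset.range (r + 1), c i : ℤ) : ℝ)
      rw [Int.cast_sum]
      refine Finset.sum_congr rfl fun i _ => ?_
      rw [eval_mul, eval_C, eval_pow, eval_X, one_pow, mul_one]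
    rw [h3] at h2
    have h4 : Av (fun n : ℕ => -(Real.log C0 + n * Real.log l)) 0 0 := by
      apply Av.of_isBigO
      have h5 := (one_lm.const_mul_left (Real.log C0)).add (id_lm.const_mul_left (Real.log l))
      refine h5.neg_left.congr_left fun n => ?_
      ring
    have h5 := h2.add h4
    rw [add_zero, add_zero] at h5
    refine h5.congr' ?_ EventuallyEq.rfl
    filter_upwards [eventually_ge_atTop 1] with n hn
    have h6 : Polynomial.aeval E (∑ i ∈ Finset.range (r + 1), C (c i : ℝ) * X ^ i)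
        (fun m => Real.log (F1.Fone (a * m + b))) n =
        ∑ i ∈ Finset.range (r + 1), (c i : ℝ) * Real.log (F1.Fone (a * (n + i) + b)) :=
      aeval_sum (r + 1) (fun i => (c i : ℝ)) _ n
    have h7 : ∑ i ∈ Finset.range (r + 1), (c i : ℝ) * Real.log (F1.Fone (a * (n + i) + b)) =
        Real.log (G n) + (Real.log C0 + n * Real.log l) := by
      have h8 := congrArg Real.log (hprod n)
      rw [Real.log_mul (hGpos n hn).ne' (by positivity), Real.log_mul hC0.ne' (by positivity),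
        Real.log_pow, Real.log_prod] at h8
      · rw [← h8]
        refine Finset.sum_congr rfl fun i _ => ?_
        rw [Real.log_zpow]
      · intro i _
        have h1 : 1 * 1 ≤ a * (n + i) := Nat.mul_le_mul ha (by omega)
        exact zpow_ne_zero _ (hK _ (by omega)).1.ne'
    rw [h6, h7]
    show Real.log (G n) + (Real.log C0 + n * Real.log l) +
      -(Real.log C0 + n * Real.log l) - _ = Real.log (G n) - _
    ring
  have hexp : ∀ n : ℕ, 1 ≤ n → ((Real.exp (Y n) : ℝ) : ℂ) = ((G n : ℚ) : ℂ) := by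
    intro n hn
    show ((Real.exp (Real.log (G n)) : ℝ) : ℂ) = _
    rw [Real.exp_log (hGpos n hn)]
    push_cast
    rfl
  -- the identity with rational numbers
  let v' : ℕ → ℂ := fun n => (C0 : ℂ) * (l : ℂ) ^ n * v n
  have hlc : (l : ℂ) ≠ 0 := by exact_mod_cast hl.ne'
  have hC0c : (C0 : ℂ) ≠ 0 := by exact_mod_cast hC0.ne'
  have hv' : PRec v' := hv.geom _ _ hlc
  have hv0' : ∃ᶠ n in atTop, v' n ≠ 0 := hv0.mono fun n hn =>
    mul_ne_zero (mul_ne_zero hC0c (pow_ne_zero _ hlc)) hn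
  have hid' : ∀ᶠ n : ℕ in atTop, ((G n : ℚ) : ℂ) * v' n = e n * u n := by
    filter_upwards [hid] with n hn
    rw [← hn, hprod n]
    show ((G n : ℚ) : ℂ) * ((C0 : ℂ) * (l : ℂ) ^ n * v n) = _
    push_cast
    ring
  obtain ⟨s, P, S, hs, hP, hS, hE⟩ := he
  have hu0 : ∃ᶠ n in atTop, u n ≠ 0 := by
    refine (hv0'.and_eventually (hid'.and (eventually_ge_atTop 1))).mono ?_
    rintro n ⟨h1, h2, h3⟩ h4
    rw [h4, mul_zero] at h2
    have h5 : ((G n : ℚ) : ℂ) ≠ 0 := by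
      have h6 : (G n : ℚ) ≠ 0 := by
        intro h7
        have h8 := hGpos n h3
        rw [h7] at h8
        norm_num at h8
      exact_mod_cast h6
    exact mul_ne_zero h5 h1 h2
  -- the first comparison
  have hcmp := cmp hY hs hP hS hE (fun ε hε => hu.upper ε hε) (fun ε hε => hu.lower hu0 ε hε)
    (fun ε hε => hv'.upper ε hε) (fun ε hε => hv'.lower hv0' ε hε) (by
      filter_upwards [hid', eventually_ge_atTop 1] with n hn hn1
      rw [hexp n hn1]
      exact hn)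
  -- the constant
  have hlP : P.leadingCoeff ≠ 0 := leadingCoeff_ne_zero.2 hP
  have hlS : S.leadingCoeff ≠ 0 := leadingCoeff_ne_zero.2 hS
  let κ : ℂ := P.leadingCoeff / S.leadingCoeff
  have hκ0 : κ ≠ 0 := div_ne_zero hlP hlS
  have hκlog : Real.log ‖κ‖ = s * (2 * β + 3 * α) := by
    show Real.log ‖P.leadingCoeff / S.leadingCoeff‖ = _
    rw [norm_div, Real.log_div (norm_ne_zero_iff.2 hlP) (norm_ne_zero_iff.2 hlS)]
    exact hcmp
  let N : ℤ := D * (a : ℤ) ^ 2
  have hN : N ≠ 0 := by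
    refine mul_ne_zero hc (pow_ne_zero _ ?_)
    exact_mod_cast (by omega : a ≠ 0)
  have hκ : ‖κ‖ = (((a : ℚ) / 6) ^ (N * s) : ℚ) * Real.exp ((2 * N * s : ℤ) : ℝ) := by
    have h1 : 0 < ‖κ‖ := norm_pos_iff.2 hκ0
    rw [← Real.exp_log h1, hκlog]
    have h2 : (s : ℝ) * (2 * β + 3 * α) = ((N * s : ℤ) : ℝ) * Real.log ((a : ℝ) / 6) +
        ((2 * N * s : ℤ) : ℝ) := by
      rw [Real.log_div (by positivity) (by norm_num)]
      show (s : ℝ) * (2 * (D * (1 / 2 * ((a : ℝ) ^ 2 * Real.log a) +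
        (1 / 4 - Real.log 6 / 2) * (a : ℝ) ^ 2)) + 3 * (D * (1 / 2 * (a : ℝ) ^ 2))) =
        (((D * (a : ℤ) ^ 2) * s : ℤ) : ℝ) * (Real.log a - Real.log 6) +
        ((2 * (D * (a : ℤ) ^ 2) * s : ℤ) : ℝ)
      push_cast
      ring
    have h3 : Real.exp (((N * s : ℤ) : ℝ) * Real.log ((a : ℝ) / 6)) =
        ((((a : ℚ) / 6) ^ (N * s) : ℚ) : ℝ) := by
      rw [← Real.log_zpow, Real.exp_log (zpow_pos (by positivity) _)]
      push_cast
      rfl
    rw [h2, Real.exp_add, h3]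
  have hκtr : Transcendental ℚ κ := by
    intro halg
    have h1 := alg_norm κ halg
    rw [hκ] at h1
    refine trE_zpow _ ?_ _ ?_ h1
    · exact zpow_ne_zero _ (by
        have : (a : ℚ) ≠ 0 := by exact_mod_cast (by omega : a ≠ 0)
        positivity)
    · refine mul_ne_zero (mul_ne_zero two_ne_zero hN) ?_
      exact_mod_cast (by omega : s ≠ 0)
  -- the endomorphism
  obtain ⟨τ, hτ⟩ := aut κ hκtr
  have hτ0 : ∀ z : ℂ, z ≠ 0 → τ z ≠ 0 := fun z hz => (map_ne_zero τ).2 hz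
  have hE' : ∀ᶠ n : ℕ in atTop, τ (e n) ≠ 0 ∧
      (τ (e (n + 2)) * τ (e n)) ^ s * (S.map τ).eval (n : ℂ) =
        (P.map τ).eval (n : ℂ) * τ (e (n + 1)) ^ (2 * s) := by
    filter_upwards [hE] with n hn
    refine ⟨hτ0 _ hn.1, ?_⟩
    have h1 := congrArg τ hn.2
    rw [map_mul, map_pow, map_mul, map_mul, map_pow] at h1
    rw [eval_natCast_map, eval_natCast_map]
    exact h1
  have hP' : P.map τ ≠ 0 := (Polynomial.map_ne_zero_iff τ.injective).2 hP
  have hS' : S.map τ ≠ 0 := (Polynomial.map_ne_zero_iff τ.injective).2 hS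
  have huτ := hu.map τ
  have hvτ := hv'.map τ
  have hcmp' := cmp (E := fun n => τ (e n)) (u := fun n => τ (u n)) (v := fun n => τ (v' n))
    hY hs hP' hS' hE' (fun ε hε => huτ.upper ε hε)
    (fun ε hε => huτ.lower (hu0.mono fun n hn => hτ0 _ hn) ε hε)
    (fun ε hε => hvτ.upper ε hε)
    (fun ε hε => hvτ.lower (hv0'.mono fun n hn => hτ0 _ hn) ε hε) (by
      filter_upwards [hid', eventually_ge_atTop 1] with n hn hn1
      rw [hexp n hn1]
      have h1 : τ (((G n : ℚ) : ℂ) * v' n) = τ (e n * u n) := congrArg τ hn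
      rw [τ.map_mul ((G n : ℚ) : ℂ) (v' n), τ.map_mul (e n) (u n), map_ratCast] at h1
      exact h1)
  have hκ' : Real.log ‖τ κ‖ = s * (2 * β + 3 * α) := by
    show Real.log ‖τ (P.leadingCoeff / S.leadingCoeff)‖ = _
    rw [map_div₀, norm_div, Real.log_div (norm_ne_zero_iff.2 (hτ0 _ hlP))
      (norm_ne_zero_iff.2 (hτ0 _ hlS))]
    rw [leadingCoeff_map, leadingCoeff_map] at hcmp'
    exact hcmp'
  rw [hτ, norm_mul, Real.log_mul (by norm_num) (norm_ne_zero_iff.2 hκ0), hκlog] at hκ'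
  have h2 : ‖(2 : ℂ)‖ = 2 := by norm_num
  rw [h2] at hκ'
  have h3 : 0 < Real.log 2 := Real.log_pos (by norm_num)
  linarith

end Pool.Agent.MSF
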